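import Mathlib

set_option autoImplicit false

open scoped commutatorElement

namespace Pool.Agent.Helper35.CD

/-- The defining relators of `GG p k` in the free group on two letters `s` (written `of true`) and
`b` (written `of false`): all `s ^ i b s ^ (-i)` with `i : ℕ` commute with `b`, the product of the
`s ^ i b s ^ (-i)` for `i = 0, ..., p - 1` is trivial, and `s ^ p = b ^ (p ^ k)`. -/
def rels (p k : ℕ) : Set (FreeGroup Bool) :=
  {r | ∃ i : ℕ, r = ⁅FreeGroup.of true ^ i * FreeGroup.of false * (FreeGroup.of true ^ i)⁻¹,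
      FreeGroup.of false⁆} ∪
    {((List.range p).map fun i =>
        FreeGroup.of true ^ i * FreeGroup.of false * (FreeGroup.of true ^ i)⁻¹).prod,
      FreeGroup.of true ^ p * (FreeGroup.of false ^ (p ^ k))⁻¹}

/-- The group `⟨s, b | [s ^ i b s ^ (-i), b] = 1 for all i, b (s b s⁻¹) ... (s ^ (p - 1) b
s ^ (1 - p)) = 1, s ^ p = b ^ (p ^ k)⟩`. -/
abbrev GG (p k : ℕ) : Type := PresentedGroup (rels p k)

/-- The relations of `GG p k` hold for `s` and `b`. -/
def Rel {G : Type} [Group G] (p k : ℕ) (s b : G) : Prop :=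
  (∀ i : ℕ, (s ^ i * b * (s ^ i)⁻¹) * b = b * (s ^ i * b * (s ^ i)⁻¹)) ∧
    ((List.range p).map fun i => s ^ i * b * (s ^ i)⁻¹).prod = 1 ∧ s ^ p = b ^ (p ^ k)

end Pool.Agent.Helper35.CD
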