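import Mathlib

set_option autoImplicit false

/-! Modules over the group ring of a cyclic group of prime order on which the norm vanishes. -/

open Polynomial

namespace Pool.Agent.Helper35.CD

theorem exists_poly (p : ℕ) [hp : Fact p.Prime] :
    ∃ g : ℤ[X], (∑ i ∈ Finset.range p, (X + 1 : ℤ[X]) ^ i) =
      X ^ (p - 1) + C (p : ℤ) * (1 + X * g) := by
  have hp1 := hp.out.one_lt
  have hf : (cyclotomic p ℤ).comp (X + 1) = ∑ i ∈ Finset.range p, (X + 1 : ℤ[X]) ^ i := by
    rw [cyclotomic_prime, sum_comp]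
    simp
  have he := cyclotomic_comp_X_add_one_isEisensteinAt p
  have hmonic : ((cyclotomic p ℤ).comp (X + 1)).Monic := by
    have : (X + 1 : ℤ[X]) = X + C 1 := by simp
    rw [this]
    exact (cyclotomic.monic p ℤ).comp_X_add_C 1
  have hdeg : ((cyclotomic p ℤ).comp (X + 1)).natDegree = p - 1 := by
    have : (X + 1 : ℤ[X]) = X + C 1 := by simp
    rw [this, natDegree_comp, natDegree_X_add_C, mul_one, natDegree_cyclotomic,
      Nat.totient_prime hp.out]
  rw [hf] at he hmonic hdeg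
  set F : ℤ[X] := ∑ i ∈ Finset.range p, (X + 1 : ℤ[X]) ^ i with hF
  have hdvd : C (p : ℤ) ∣ F - X ^ (p - 1) := by
    rw [C_dvd_iff_dvd_coeff]
    intro n
    rw [coeff_sub, coeff_X_pow]
    rcases lt_trichotomy n (p - 1) with h | h | h
    · rw [if_neg h.ne, sub_zero]
      have := he.mem (n := n) (by rw [hdeg]; exact h)
      rw [Submodule.mem_span_singleton] at this
      obtain ⟨a, ha⟩ := this
      exact ⟨a, by rw [← ha]; simp [mul_comm]⟩
    · rw [if_pos h, h]
      have : F.coeff (p - 1) = 1 := by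
        have := hmonic.coeff_natDegree
        rwa [hdeg] at this
      rw [this]; simp
    · rw [if_neg h.ne', coeff_eq_zero_of_natDegree_lt (by rw [hdeg]; exact h)]
      simp
  obtain ⟨g0, hg0⟩ := hdvd
  have h0 : g0.coeff 0 = 1 := by
    have h1 := congrArg (fun q : ℤ[X] => q.eval 0) hg0
    simp only [eval_sub, eval_mul, eval_C, eval_pow, eval_X] at h1
    rw [zero_pow (by omega), sub_zero, hF, eval_finsetSum] at h1
    simp only [eval_pow, eval_add, eval_X, eval_one, zero_add, one_pow, Finset.sum_const,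
      Finset.card_range, nsmul_eq_mul, mul_one] at h1
    rw [coeff_zero_eq_eval_zero]
    have hp0 : (p : ℤ) ≠ 0 := by exact_mod_cast hp.out.ne_zero
    have h2 : (p : ℤ) * (eval 0 g0) = p * 1 := by rw [mul_one]; exact h1.symm
    exact mul_left_cancel₀ hp0 h2
  refine ⟨g0.divX, ?_⟩
  have h3 := divX_mul_X_add g0
  rw [h0] at h3
  have h4 : 1 + X * g0.divX = g0 := by
    calc 1 + X * g0.divX = g0.divX * X + C 1 := by rw [map_one]; ring
      _ = g0 := h3
  rw [h4, ← hg0]
  ring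

theorem card_of_chain {p : ℕ} [hp : Fact p.Prime] : ∀ (r : ℕ) (M : Type) [AddCommGroup M]
    (t : M →+ M) (b : M),
    (∀ m, ∃ n : ℤ, ∃ m', m = n • b + t m') → (∀ m, ∃ m', p • m = t m') →
    (∀ m, t^[r] m = 0) → (∀ r', r = r' + 1 → t^[r'] b ≠ 0) →
    Nat.card M = p ^ r ∧ (∀ r', r = r' + 1 → Nat.card t.ker = p)
  | 0, M, _, t, b, _, _, h3, _ => by
    have : Subsingleton M := ⟨fun x y => by
      have hx := h3 x
      have hy := h3 y
      simp only [Function.iterate_zero, id_eq] at hx hy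
      rw [hx, hy]⟩
    exact ⟨by simp, fun r' h => by omega⟩
  | r + 1, M, _, t, b, h1, h2, h3, h4 => by
    let t' : t.range →+ t.range := (t.comp t.range.subtype).codRestrict t.range
      (fun x => ⟨x, rfl⟩)
    have ht' : ∀ x : t.range, ((t' x : t.range) : M) = t x := fun x => rfl
    have hit : ∀ (n : ℕ) (x : t.range), ((t'^[n] x : t.range) : M) = t^[n] x := by
      intro n
      induction n with
      | zero => intro x; rfl
      | succ n ih => intro x; rw [Function.iterate_succ_apply, ih, ht',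
          Function.iterate_succ_apply]
    have ih := card_of_chain r t.range t' ⟨t b, ⟨b, rfl⟩⟩
      (by
        rintro ⟨_, m, rfl⟩
        obtain ⟨n, m', hm⟩ := h1 m
        refine ⟨n, ⟨t m', ⟨m', rfl⟩⟩, ?_⟩
        apply Subtype.ext
        change t m = n • t b + t (t m')
        rw [hm, map_add, map_zsmul])
      (by
        rintro ⟨_, m, rfl⟩
        obtain ⟨m', hm⟩ := h2 m
        refine ⟨⟨t m', ⟨m', rfl⟩⟩, ?_⟩
        apply Subtype.ext
        change p • t m = t (t m')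
        rw [← hm, map_nsmul])
      (by
        rintro ⟨_, m, rfl⟩
        apply Subtype.ext
        rw [hit]
        change t^[r] (t m) = 0
        rw [← Function.iterate_succ_apply]
        exact h3 m)
      (by
        intro r' hr h
        have h5 : ((t'^[r'] ⟨t b, ⟨b, rfl⟩⟩ : t.range) : M) = 0 := by rw [h]; rfl
        rw [hit] at h5
        change t^[r'] (t b) = 0 at h5
        rw [← Function.iterate_succ_apply] at h5
        exact h4 (r' + 1) (by omega) h5)
    have hidx : t.range.index = p := by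
      have hb : (QuotientAddGroup.mk b : M ⧸ t.range) ≠ 0 := by
        intro h
        rw [QuotientAddGroup.eq_zero_iff] at h
        obtain ⟨m, hm⟩ := h
        apply h4 r rfl
        rw [← hm, ← Function.iterate_succ_apply]
        exact h3 m
      have hpb : p • (QuotientAddGroup.mk b : M ⧸ t.range) = 0 := by
        obtain ⟨m', hm⟩ := h2 b
        rw [← QuotientAddGroup.mk_nsmul, QuotientAddGroup.eq_zero_iff, hm]
        exact ⟨m', rfl⟩
      have h6 : addOrderOf (QuotientAddGroup.mk b : M ⧸ t.range) = p :=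
        addOrderOf_eq_prime hpb hb
      have h7 : AddSubgroup.zmultiples (QuotientAddGroup.mk b : M ⧸ t.range) = ⊤ := by
        rw [AddSubgroup.eq_top_iff']
        intro x
        obtain ⟨m, rfl⟩ := QuotientAddGroup.mk_surjective x
        obtain ⟨n, m', hm⟩ := h1 m
        rw [AddSubgroup.mem_zmultiples_iff]
        refine ⟨n, ?_⟩
        rw [← QuotientAddGroup.mk_zsmul, QuotientAddGroup.eq, hm]
        exact ⟨m', by abel⟩
      rw [AddSubgroup.index, ← addOrderOf_eq_card_of_zmultiples_eq_top h7, h6]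
    have hM : Nat.card M = p ^ (r + 1) := by
      rw [← AddSubgroup.card_mul_index t.range, ih.1, hidx, pow_succ]
    refine ⟨hM, fun r' hr' => ?_⟩
    have h8 := AddSubgroup.card_mul_index t.ker
    rw [AddSubgroup.index_ker, ih.1, hM, pow_succ, mul_comm] at h8
    exact Nat.eq_of_mul_eq_mul_left (pow_pos hp.out.pos r) h8

section Struct

variable {p : ℕ} [hp : Fact p.Prime] {M : Type} [AddCommGroup M] (σ : AddMonoid.End M)

theorem sub_one_apply (m : M) : (σ - 1 : AddMonoid.End M) m = σ m - m := rfl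

/-- The action of an integral polynomial in `σ - 1`. -/
noncomputable def ev (f : ℤ[X]) : AddMonoid.End M := aeval (R := ℤ) (σ - 1) f

theorem ev_mul (f g : ℤ[X]) (m : M) : ev σ (f * g) m = ev σ f (ev σ g m) := by
  rw [ev, map_mul]; rfl

theorem ev_add (f g : ℤ[X]) (m : M) : ev σ (f + g) m = ev σ f m + ev σ g m := by
  rw [ev, map_add]; rfl

theorem ev_X (m : M) : ev σ X m = (σ - 1 : AddMonoid.End M) m := by
  rw [ev, aeval_X]

theorem ev_one (m : M) : ev σ 1 m = m := by
  rw [ev, map_one]; rfl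

theorem ev_C (n : ℤ) (m : M) : ev σ (C n) m = n • m := by
  rw [ev, aeval_C]
  simp

theorem ev_zero (m : M) : ev σ 0 m = 0 := by
  rw [ev, map_zero]; rfl

theorem ev_X_pow (n : ℕ) (m : M) : ev σ (X ^ n) m = (σ - 1 : AddMonoid.End M)^[n] m := by
  induction n generalizing m with
  | zero => rw [pow_zero, ev_one]; rfl
  | succ n ih => rw [pow_succ, ev_mul, ih, ev_X]; rfl

omit hp in
theorem ev_norm (hN : ∀ m, ∑ i ∈ Finset.range p, (σ ^ i : AddMonoid.End M) m = 0) (m : M) :
    ev σ (∑ i ∈ Finset.range p, (X + 1 : ℤ[X]) ^ i) m = 0 := by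
  have h : ev σ (∑ i ∈ Finset.range p, (X + 1 : ℤ[X]) ^ i) =
      ∑ i ∈ Finset.range p, σ ^ i := by
    rw [ev]
    simp only [map_sum, map_pow, map_add, aeval_X, map_one, sub_add_cancel]
  rw [h]
  have h2 := hN m
  rw [← h2]
  exact AddMonoidHom.finsetSum_apply _ _ _

theorem exists_poly_pow (p : ℕ) [hp : Fact p.Prime] (k : ℕ) :
    ∃ q g : ℤ[X], (X ^ (k * (p - 1)) : ℤ[X]) =
      q * (∑ i ∈ Finset.range p, (X + 1 : ℤ[X]) ^ i) +
        C ((-1) ^ k * (p : ℤ) ^ k) * (1 + g * X) := by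
  obtain ⟨g, hg⟩ := exists_poly p
  induction k with
  | zero => exact ⟨0, 0, by simp⟩
  | succ k ih =>
    obtain ⟨q, g', h⟩ := ih
    set S : ℤ[X] := ∑ i ∈ Finset.range p, (X + 1 : ℤ[X]) ^ i
    refine ⟨q * X ^ (p - 1) + C ((-1) ^ k * (p : ℤ) ^ k) * (1 + g' * X), g + g' + g * g' * X, ?_⟩
    have h5 : (X ^ (p - 1) : ℤ[X]) = S - C (p : ℤ) * (1 + X * g) := by rw [hg]; ring
    have h6 : (C ((-1) ^ (k + 1) * (p : ℤ) ^ (k + 1)) : ℤ[X]) =
        - (C ((-1) ^ k * (p : ℤ) ^ k) * C (p : ℤ)) := by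
      rw [← C_mul, ← C_neg]
      congr 1
      ring
    rw [Nat.succ_mul, pow_add, h, h6]
    linear_combination (C ((-1) ^ k * (p : ℤ) ^ k) * (1 + g' * X)) * h5

theorem p_smul_mem (hN : ∀ m, ∑ i ∈ Finset.range p, (σ ^ i : AddMonoid.End M) m = 0) (m : M) :
    ∃ m', p • m = (σ - 1 : AddMonoid.End M) m' := by
  obtain ⟨g, hg⟩ := exists_poly p
  have hp2 : p - 1 = (p - 2) + 1 := by have := hp.out.two_le; omega
  have h1 : (C (p : ℤ) : ℤ[X]) = (∑ i ∈ Finset.range p, (X + 1 : ℤ[X]) ^ i) +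
      X * (- (X ^ (p - 2)) - C (p : ℤ) * g) := by
    rw [hg, hp2, pow_succ]; ring
  have h2 : ev σ (C (p : ℤ)) m = p • m := by rw [ev_C]; exact natCast_zsmul _ _
  refine ⟨ev σ (- (X ^ (p - 2)) - C (p : ℤ) * g) m, ?_⟩
  rw [← h2]
  conv_lhs => rw [h1]
  rw [ev_add, ev_norm σ hN, zero_add, ev_mul, ev_X]

theorem pow_apply (hN : ∀ m, ∑ i ∈ Finset.range p, (σ ^ i : AddMonoid.End M) m = 0)
    (b : M) (k : ℕ) (hk : p ^ k • ((σ - 1 : AddMonoid.End M) b) = 0) :
    (σ - 1 : AddMonoid.End M)^[k * (p - 1)] b = (-1 : ℤ) ^ k • (p ^ k • b) := by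
  obtain ⟨q, g, h⟩ := exists_poly_pow p k
  rw [← ev_X_pow, h, ev_add, ev_mul, ev_norm σ hN, map_zero, zero_add, C_mul, mul_assoc, ev_mul,
    ev_C]
  congr 1
  have h2 : (C ((p : ℤ) ^ k) * (1 + g * X) : ℤ[X]) =
      C ((p : ℤ) ^ k) + g * (C ((p : ℤ) ^ k) * X) := by ring
  rw [h2, ev_add, ev_mul, ev_mul, ev_C, ev_C, ev_X]
  have h3 : ∀ x : M, ((p : ℤ) ^ k) • x = p ^ k • x := by
    intro x
    have := natCast_zsmul x (p ^ k)
    rwa [Nat.cast_pow] at this
  rw [h3, h3, hk, map_zero, add_zero]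

/-- Everything is generated by `b` under the action of `σ`. -/
def Gen (b : M) : Prop := ∀ m : M, ∃ f : ℤ[X], m = ev σ f b

theorem struct (hN : ∀ m, ∑ i ∈ Finset.range p, (σ ^ i : AddMonoid.End M) m = 0)
    (b : M) (hgen : Gen σ b) (k : ℕ)
    (hk : p ^ k • ((σ - 1 : AddMonoid.End M) b) = 0) (hz : p ^ k • b ≠ 0) :
    Nat.card M = p ^ (k * (p - 1) + 1) ∧
      ∀ m : M, (σ - 1 : AddMonoid.End M) m = 0 → ∃ j : ℤ, m = j • (p ^ k • b) := by
  have hstep : ∀ m, ∃ n : ℤ, ∃ m', m = n • b + (σ - 1 : AddMonoid.End M) m' := by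
    intro m
    obtain ⟨f, rfl⟩ := hgen m
    refine ⟨f.coeff 0, ev σ f.divX b, ?_⟩
    conv_lhs => rw [← divX_mul_X_add f]
    rw [mul_comm, ev_add, ev_mul, ev_X, ev_C, add_comm]
  have hr : ∀ m, (σ - 1 : AddMonoid.End M)^[k * (p - 1) + 1] m = 0 := by
    intro m
    obtain ⟨f, rfl⟩ := hgen m
    rw [← ev_X_pow, ← ev_mul, mul_comm, ev_mul, pow_succ', ev_mul, ev_X, ev_X_pow,
      pow_apply σ hN b k hk, map_zsmul, map_nsmul, hk, smul_zero, map_zero]
  have h4 : ∀ r', k * (p - 1) + 1 = r' + 1 → (σ - 1 : AddMonoid.End M)^[r'] b ≠ 0 := by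
    intro r' hr'
    have : r' = k * (p - 1) := by omega
    rw [this, pow_apply σ hN b k hk]
    intro h0
    apply hz
    rcases neg_one_pow_eq_or ℤ k with h | h
    · rwa [h, one_smul] at h0
    · rw [h, neg_one_smul] at h0
      exact neg_eq_zero.1 h0
  have h5 := card_of_chain (k * (p - 1) + 1) M (σ - 1 : AddMonoid.End M) b hstep
    (p_smul_mem σ hN) hr h4
  refine ⟨h5.1, ?_⟩
  have h6 := h5.2 _ rfl
  intro m hm
  let T : M →+ M := (σ - 1 : AddMonoid.End M)
  have h6' : Nat.card T.ker = p := h6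
  have hzk : p ^ k • b ∈ T.ker := by
    rw [AddMonoidHom.mem_ker, map_nsmul]
    exact hk
  have hmk : m ∈ T.ker := hm
  have h7 : (⟨m, hmk⟩ : T.ker) ∈ AddSubgroup.zmultiples (⟨p ^ k • b, hzk⟩ : T.ker) :=
    mem_zmultiples_of_prime_card h6' (by
      intro h0
      exact hz (congrArg Subtype.val h0))
  rw [AddSubgroup.mem_zmultiples_iff] at h7
  obtain ⟨j, hj⟩ := h7
  exact ⟨j, (congrArg Subtype.val hj).symm⟩

end Struct

end Pool.Agent.Helper35.CD
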