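import Mathlib
import Pool.Agent.Helper35.CD.Mod

set_option autoImplicit false

/-! The module theorem behind the classification. -/

open Polynomial

namespace Pool.Agent.Helper35.CD

section Basic

variable {p : ℕ} [hp : Fact p.Prime] {M : Type} [AddCommGroup M]

theorem exists_inv_smul {x : M} {e : ℕ} (hx : p ^ e • x = 0) {u : ℤ} (hu : ¬ (p : ℤ) ∣ u) :
    ∃ v : ℤ, v • (u • x) = x ∧ ¬ (p : ℤ) ∣ v := by
  have hpr : Prime (p : ℤ) := Nat.prime_iff_prime_int.1 hp.out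
  have h1 : IsCoprime (p : ℤ) u := (hpr.coprime_iff_not_dvd).2 hu
  obtain ⟨a, v, h⟩ := h1.pow_left (m := e + 1)
  refine ⟨v, ?_, ?_⟩
  · have h2 : ((p : ℤ) ^ (e + 1)) • x = 0 := by
      have h3 := natCast_zsmul x (p ^ (e + 1))
      rw [Nat.cast_pow] at h3
      rw [h3, pow_succ, mul_comm, mul_smul, hx, smul_zero]
    have h4 : (a * (p : ℤ) ^ (e + 1) + v * u) • x = x := by rw [h, one_smul]
    rw [add_smul, mul_smul, h2, smul_zero, zero_add, mul_smul] at h4
    exact h4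
  · rintro ⟨w, rfl⟩
    apply hpr.not_dvd_one
    rw [← h]
    exact dvd_add (Dvd.dvd.mul_left (dvd_pow_self _ (Nat.succ_ne_zero e)) a)
      (by rw [mul_assoc]; exact dvd_mul_right _ _)

theorem socle_of {x : M} {e : ℕ} (hx : p ^ e • x = 0) {j : ℤ} (hj : j • x ≠ 0) :
    ∃ f < e, ∃ v : ℤ, ¬ (p : ℤ) ∣ v ∧ v • (j • x) = p ^ f • x := by
  have hj0 : j ≠ 0 := by rintro rfl; exact hj (zero_smul _ _)
  have hfin : FiniteMultiplicity (p : ℤ) j :=
    Int.finiteMultiplicity_iff.2 ⟨by simpa using hp.out.one_lt.ne', hj0⟩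
  obtain ⟨u, hu, hpu⟩ := hfin.exists_eq_pow_mul_and_not_dvd
  set f := multiplicity (p : ℤ) j with hf
  have hju : j • x = u • (p ^ f • x) := by
    rw [hu, mul_comm, mul_smul]
    congr 1
    have h3 := natCast_zsmul x (p ^ f)
    rwa [Nat.cast_pow] at h3
  have hfe : f < e := by
    by_contra h
    obtain ⟨g, hg⟩ := Nat.exists_eq_add_of_le (not_lt.1 h)
    apply hj
    rw [hju, hg, pow_add, mul_comm, mul_smul, hx, smul_zero, smul_zero]
  have h0 : p ^ e • (p ^ f • x) = 0 := by rw [smul_comm, hx, smul_zero]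
  obtain ⟨v, hv, hpv⟩ := exists_inv_smul (p := p) h0 hpu
  exact ⟨f, hfe, v, hpv, by rw [hju]; exact hv⟩

/-- The norm polynomial. -/
noncomputable def S (p : ℕ) : ℤ[X] := ∑ i ∈ Finset.range p, (X + 1 : ℤ[X]) ^ i

variable (σ : AddMonoid.End M)

omit hp in
theorem norm_eq_ev (m : M) :
    ∑ i ∈ Finset.range p, (σ ^ i : AddMonoid.End M) m = ev σ (S p) m := by
  have h : ev σ (∑ i ∈ Finset.range p, (X + 1 : ℤ[X]) ^ i) =
      ∑ i ∈ Finset.range p, σ ^ i := by
    rw [ev]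
    simp only [map_sum, map_pow, map_add, aeval_X, map_one, sub_add_cancel]
  rw [S, h]
  exact (AddMonoidHom.finsetSum_apply _ _ _).symm

theorem ev_comm (f g : ℤ[X]) (m : M) : ev σ f (ev σ g m) = ev σ g (ev σ f m) := by
  rw [← ev_mul, mul_comm, ev_mul]

theorem ev_sub (f g : ℤ[X]) (m : M) : ev σ (f - g) m = ev σ f m - ev σ g m := by
  rw [ev, map_sub]; rfl

theorem ev_X' (m : M) : ev σ X m = σ m - m := by rw [ev_X]; rfl

theorem ev_X1 (m : M) : ev σ (X + 1) m = σ m := by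
  rw [ev_add, ev_X', ev_one, sub_add_cancel]

theorem ev_X1_pow (n : ℕ) (m : M) : ev σ ((X + 1) ^ n) m = (σ ^ n : AddMonoid.End M) m := by
  induction n generalizing m with
  | zero => rw [pow_zero, ev_one]; rfl
  | succ n ih => rw [pow_succ, ev_mul, ih, ev_X1, pow_succ]; rfl

omit hp in
theorem ev_XS (hσ : σ ^ p = 1) (m : M) : ev σ (X * S p) m = 0 := by
  have h := mul_geom_sum (X + 1 : ℤ[X]) p
  rw [add_sub_cancel_right] at h
  rw [S, h, ev_sub, ev_X1_pow, ev_one, hσ]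
  exact sub_self m

theorem ev_fix {z : M} (hz : σ z = z) (n : ℕ) : ∃ d : ℤ, ev σ (X ^ n) z = d • z := by
  rcases n with _ | n
  · exact ⟨1, by rw [pow_zero, ev_one, one_smul]⟩
  · refine ⟨0, ?_⟩
    rw [pow_succ, ev_mul, ev_X', hz, sub_self, map_zero, zero_smul]

omit hp in
theorem ev_S_fix {z : M} (hz : σ z = z) : ev σ (S p) z = p • z := by
  rw [← norm_eq_ev]
  have h : ∀ i : ℕ, (σ ^ i : AddMonoid.End M) z = z := by
    intro i
    induction i with
    | zero => rfl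
    | succ i ih => rw [pow_succ]; change (σ ^ i : AddMonoid.End M) (σ z) = z; rw [hz, ih]
  simp only [h, Finset.sum_const, Finset.card_range]

theorem exists_Xp (hσ : σ ^ p = 1) : ∃ h : ℤ[X], ∀ m : M, ev σ (X ^ p) m = p • ev σ h m := by
  obtain ⟨g, hg⟩ := exists_poly p
  have hp1 : p = (p - 1) + 1 := by have := hp.out.pos; omega
  refine ⟨- (X * (1 + X * g)), fun m => ?_⟩
  have h1 : (X ^ p : ℤ[X]) = X * S p + C (p : ℤ) * (- (X * (1 + X * g))) := by
    have h2 : S p = X ^ (p - 1) + C (p : ℤ) * (1 + X * g) := hg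
    have h3 : (X ^ p : ℤ[X]) = X * X ^ (p - 1) := by
      conv_lhs => rw [hp1, pow_succ']
    rw [h2, h3]; ring
  rw [h1, ev_add, ev_XS σ hσ, zero_add, ev_mul, ev_C]
  exact natCast_zsmul _ _

theorem gen_lemma (hσ : σ ^ p = 1) {E : ℕ} (hE : ∀ x : M, p ^ E • x = 0) {z0 : M}
    (hz0 : σ z0 = z0) (b : M)
    (h : ∀ m : M, ∃ l : ℤ, ∃ a c : M, ∃ j : ℤ, m = l • b + (ev σ X a + p • c + j • z0)) (m : M) :
    ∃ f : ℤ[X], ∃ j : ℤ, m = ev σ f b + j • z0 := by
  have h1 : ∀ (r : ℕ) (m : M), ∃ f : ℤ[X], ∃ a c : M, ∃ j : ℤ,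
      m = ev σ f b + (ev σ (X ^ r) a + p • c + j • z0) := by
    intro r
    induction r with
    | zero =>
      intro m
      exact ⟨0, m, 0, 0, by rw [ev_zero, pow_zero, ev_one]; simp⟩
    | succ r ih =>
      intro m
      obtain ⟨f, a, c, j, hm⟩ := ih m
      obtain ⟨l, a', c', j', ha⟩ := h a
      obtain ⟨d, hd⟩ := ev_fix σ hz0 r
      refine ⟨f + X ^ r * C l, a', c + ev σ (X ^ r) c', j + j' * d, ?_⟩
      rw [hm, ha, map_add, map_add, map_add, map_zsmul, map_nsmul, map_zsmul, hd, pow_succ, ev_mul,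
        ev_add, ev_mul, ev_C, map_zsmul, smul_add, add_smul, mul_smul]
      abel
  obtain ⟨q, hq⟩ := exists_Xp σ hσ
  have h2 : ∀ m : M, ∃ f : ℤ[X], ∃ c : M, ∃ j : ℤ, m = ev σ f b + (p • c + j • z0) := by
    intro m
    obtain ⟨f, a, c, j, hm⟩ := h1 p m
    refine ⟨f, ev σ q a + c, j, ?_⟩
    rw [hm, hq, smul_add]
  have h3 : ∀ (r : ℕ) (m : M), ∃ f : ℤ[X], ∃ c : M, ∃ j : ℤ,
      m = ev σ f b + (p ^ r • c + j • z0) := by
    intro r
    induction r with
    | zero => intro m; exact ⟨0, m, 0, by rw [ev_zero]; simp⟩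
    | succ r ih =>
      intro m
      obtain ⟨f, c, j, hm⟩ := ih m
      obtain ⟨f', c', j', hc⟩ := h2 c
      refine ⟨f + C ((p ^ r : ℕ) : ℤ) * f', c', j + ((p ^ r : ℕ) : ℤ) * j', ?_⟩
      have e1 : p ^ r • (p • c') = p ^ (r + 1) • c' := by rw [← mul_smul, pow_succ]
      have e2 : ∀ x : M, ((p ^ r : ℕ) : ℤ) • x = p ^ r • x := fun x => natCast_zsmul _ _
      rw [hm, hc, smul_add, smul_add, e1, ev_add, ev_mul, ev_C, e2, add_smul, mul_smul, e2]
      abel
  obtain ⟨f, c, j, hm⟩ := h3 E m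
  exact ⟨f, j, by rw [hm, hE, zero_add]⟩

theorem fix_lemma (b : M) (hb : ev σ (S p) b = 0) (k : ℕ)
    (hk : p ^ k • ((σ - 1 : AddMonoid.End M) b) = 0) (hz : p ^ k • b ≠ 0) (f : ℤ[X])
    (hf : σ (ev σ f b) = ev σ f b) : ∃ j : ℤ, ev σ f b = j • (p ^ k • b) := by
  let F : ℤ[X] →+ M := AddMonoidHom.mk' (fun f => ev σ f b) (fun f g => ev_add σ f g b)
  let B : AddSubgroup M := F.range
  let σB : AddMonoid.End B := (AddMonoidHom.comp σ B.subtype).codRestrict B (by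
    rintro ⟨_, g, rfl⟩
    exact ⟨(X + 1) * g, by
      change ev σ ((X + 1) * g) b = σ (ev σ g b)
      rw [ev_mul, ev_X1]⟩)
  have hσB : ∀ x : B, ((σB x : B) : M) = σ x := fun x => rfl
  have hXn : ∀ (n : ℕ) (x : B), ((ev σB (X ^ n) x : B) : M) = ev σ (X ^ n) (x : M) := by
    intro n
    induction n with
    | zero => intro x; rw [pow_zero, ev_one, ev_one]
    | succ n ih =>
      intro x
      rw [pow_succ, ev_mul, ih, ev_mul, ev_X', ev_X', AddSubgroup.coe_sub, hσB]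
  have hev : ∀ (g : ℤ[X]) (x : B), ((ev σB g x : B) : M) = ev σ g (x : M) := by
    intro g x
    induction g using Polynomial.induction_on' with
    | add g h hg hh => rw [ev_add, ev_add, AddSubgroup.coe_add, hg, hh]
    | monomial n a =>
      rw [← C_mul_X_pow_eq_monomial, ev_mul, ev_mul, ev_C, ev_C, ← hXn]
      rfl
  have hbB : b ∈ B := ⟨1, ev_one σ b⟩
  have hN : ∀ m : B, ∑ i ∈ Finset.range p, (σB ^ i : AddMonoid.End B) m = 0 := by
    rintro ⟨_, g, rfl⟩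
    rw [norm_eq_ev]
    apply Subtype.ext
    rw [hev]
    change ev σ (S p) (ev σ g b) = 0
    rw [ev_comm, hb, map_zero]
  have hgen : Gen σB (⟨b, hbB⟩ : B) := by
    rintro ⟨_, g, rfl⟩
    refine ⟨g, ?_⟩
    apply Subtype.ext
    rw [hev]
    rfl
  have h := (struct σB hN ⟨b, hbB⟩ hgen k (by
    apply Subtype.ext
    exact hk) (by
    intro h0
    exact hz (congrArg Subtype.val h0))).2 ⟨ev σ f b, f, rfl⟩ (by
      apply Subtype.ext
      change σ (ev σ f b) - ev σ f b = 0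
      rw [hf, sub_self])
  obtain ⟨j, hj⟩ := h
  exact ⟨j, congrArg Subtype.val hj⟩

end Basic

end Pool.Agent.Helper35.CD
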