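import Mathlib
import Pool.Agent.Helper35.CD.Mod2

set_option autoImplicit false

/-! The module theorem behind the classification. -/

open Polynomial

namespace Pool.Agent.Helper35.CD

section Thm

variable {p : ℕ} [hp : Fact p.Prime] {M : Type} [AddCommGroup M] {σ : AddMonoid.End M}

/-- The subgroup `τM + pM + ℤ z0`. -/
def Phi (p : ℕ) (σ : AddMonoid.End M) (z0 : M) : AddSubgroup M where
  carrier := {x | ∃ a c : M, ∃ j : ℤ, x = ev σ X a + p • c + j • z0}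
  add_mem' := by
    rintro _ _ ⟨a, c, j, rfl⟩ ⟨a', c', j', rfl⟩
    exact ⟨a + a', c + c', j + j', by rw [map_add, smul_add, add_smul]; abel⟩
  zero_mem' := ⟨0, 0, 0, by simp⟩
  neg_mem' := by
    rintro _ ⟨a, c, j, rfl⟩
    exact ⟨-a, -c, -j, by rw [map_neg, smul_neg, neg_smul]; abel⟩

/-- The data extracted from a co-Dedekindian group with an abelian maximal subgroup. -/
structure Hyp (p m E : ℕ) (σ : AddMonoid.End M) (z0 : M) : Prop where
  hE : ∀ x : M, p ^ E • x = 0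
  hσ : σ ^ p = 1
  hz0 : σ z0 = z0
  hZ : ∀ z, σ z = z → ∃ j : ℤ, z = j • z0
  hN : ∀ a, ∃ w : ℤ, ev σ (S p) a = p • (w • z0)
  hm1 : p ^ (m + 1) • z0 = 0
  hm2 : p ^ m • z0 ≠ 0
  hcr : ∀ x : M, (∀ j : ℤ, σ (j • x) = j • x → j • x = 0) →
    ∃ a c d : M, ∃ j : ℤ, x = ev σ X a + p ^ (m + 1) • c + p ^ m • (ev σ (S p) d + j • z0)
  hne : ∃ a, σ a ≠ a

variable {m E : ℕ} {z0 : M}

theorem socle_eq (H : Hyp p m E σ z0) {z : M} (hz : σ z = z) (hz1 : z ≠ 0) (hz2 : p • z = 0) :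
    ∃ v : ℤ, ¬ (p : ℤ) ∣ v ∧ v • z = p ^ m • z0 := by
  obtain ⟨j, rfl⟩ := H.hZ z hz
  obtain ⟨f, hf, v, hv, hvj⟩ := socle_of H.hm1 hz1
  refine ⟨v, hv, ?_⟩
  have h1 : p ^ (f + 1) • z0 = 0 := by
    rw [pow_succ', mul_smul, ← hvj, smul_comm, hz2, smul_zero]
  have h2 : f = m := by
    by_contra hne
    have h3 : f + 1 ≤ m := by omega
    obtain ⟨g, hg⟩ := Nat.exists_eq_add_of_le h3
    apply H.hm2
    rw [hg, pow_add, mul_comm, mul_smul, h1, smul_zero]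
  rw [hvj, h2]

theorem dag (H : Hyp p m E σ z0) {x : M} (hx : x ∉ Phi p σ z0) :
    ∃ e : ℕ, ∃ v : ℤ, ¬ (p : ℤ) ∣ v ∧ p ^ (e + 1) • x = 0 ∧ p ^ e • x ≠ 0 ∧
      v • (p ^ e • x) = p ^ m • z0 ∧ σ (p ^ e • x) = p ^ e • x := by
  have h1 : ∃ j : ℤ, σ (j • x) = j • x ∧ j • x ≠ 0 := by
    by_contra h
    push Not at h
    apply hx
    obtain ⟨a, c, d, j, hxe⟩ := H.hcr x h
    obtain ⟨w, hw⟩ := H.hN d
    refine ⟨a, p ^ m • c, ((p ^ m : ℕ) : ℤ) * ((p : ℤ) * w + j), ?_⟩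
    have e1 : p ^ (m + 1) • c = p • (p ^ m • c) := by rw [← mul_smul, pow_succ']
    have e2 : ∀ y : M, ((p ^ m : ℕ) : ℤ) • y = p ^ m • y := fun x => natCast_zsmul _ _
    have e3 : ∀ y : M, (p : ℤ) • y = p • y := fun x => natCast_zsmul _ _
    rw [hxe, hw, e1, mul_smul, add_smul, mul_smul, e2, e3]
  obtain ⟨j, hj1, hj2⟩ := h1
  obtain ⟨f, hf, v, hv, hvj⟩ := socle_of (H.hE x) hj2
  have hf0 : p ^ f • x ≠ 0 := by
    intro h0
    rw [h0] at hvj
    obtain ⟨v', hv', -⟩ := exists_inv_smul (p := p) (x := j • x) (e := E) (H.hE _) hv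
    rw [hvj, smul_zero] at hv'
    exact hj2 hv'.symm
  have hfix : σ (p ^ f • x) = p ^ f • x := by rw [← hvj, map_zsmul, hj1]
  classical
  have hex : ∃ e, p ^ e • x = 0 := ⟨E, H.hE x⟩
  have he1 : p ^ (Nat.find hex) • x = 0 := Nat.find_spec hex
  have he1f : f < Nat.find hex := by
    by_contra h
    obtain ⟨g, hg⟩ := Nat.exists_eq_add_of_le (not_lt.1 h)
    apply hf0
    rw [hg, pow_add, mul_comm, mul_smul, he1, smul_zero]
  obtain ⟨e, he⟩ : ∃ e, Nat.find hex = e + 1 := ⟨Nat.find hex - 1, by omega⟩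
  have he2 : p ^ e • x ≠ 0 := Nat.find_min hex (by omega)
  have he3 : σ (p ^ e • x) = p ^ e • x := by
    obtain ⟨g, hg⟩ := Nat.exists_eq_add_of_le (show f ≤ e by omega)
    have : p ^ e • x = p ^ g • (p ^ f • x) := by rw [hg, pow_add, mul_comm, mul_smul]
    rw [this, map_nsmul, hfix]
  rw [he] at he1
  have he4 : p • (p ^ e • x) = 0 := by rw [← mul_smul, ← pow_succ']; exact he1
  obtain ⟨v2, hv2, hv3⟩ := socle_eq H he3 he2 he4
  exact ⟨e, v2, hv2, he1, he2, hv3, he3⟩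

omit hp in
theorem mem_Phi_of_z0 (j : ℤ) : j • z0 ∈ Phi p σ z0 := ⟨0, 0, j, by simp⟩

omit hp in
theorem mem_Phi_p (c : M) : p • c ∈ Phi p σ z0 := ⟨0, c, 0, by simp⟩

theorem exists_not_mem (H : Hyp p m E σ z0) : ∃ y, y ∉ Phi p σ z0 := by
  by_contra h
  push Not at h
  obtain ⟨a, ha⟩ := H.hne
  have h1 := gen_lemma σ H.hσ H.hE H.hz0 0 (by
    intro x
    obtain ⟨a, c, j, hx⟩ := h x
    exact ⟨0, a, c, j, by rw [zero_smul, zero_add]; exact hx⟩) a
  obtain ⟨f, j, hj⟩ := h1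
  apply ha
  rw [hj, map_zero, zero_add, map_zsmul, H.hz0]

theorem exists_top (H : Hyp p m E σ z0) : ∃ y, y ∉ Phi p σ z0 ∧
    ∀ x : M, ∃ l : ℤ, x - l • y ∈ Phi p σ z0 := by
  classical
  obtain ⟨y1, hy1⟩ := exists_not_mem H
  have hex : ∃ e, ∃ y, y ∉ Phi p σ z0 ∧ p ^ e • y = 0 := ⟨E, y1, hy1, H.hE y1⟩
  obtain ⟨y, hy, hy0⟩ := Nat.find_spec hex
  have hmin : ∀ (x : M) (e : ℕ), e < Nat.find hex → p ^ e • x = 0 → x ∈ Phi p σ z0 := by
    intro x e he hx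
    by_contra h
    exact Nat.find_min hex he ⟨x, h, hx⟩
  refine ⟨y, hy, fun x => ?_⟩
  by_cases hx : x ∈ Phi p σ z0
  · exact ⟨0, by rw [zero_smul, sub_zero]; exact hx⟩
  obtain ⟨e, v2, hv2, hye1, hye2, hyv, -⟩ := dag H hy
  obtain ⟨f, v1, hv1, hxf1, hxf2, hxv, -⟩ := dag H hx
  have h1 : e < Nat.find hex := by
    by_contra h
    obtain ⟨g, hg⟩ := Nat.exists_eq_add_of_le (not_lt.1 h)
    apply hye2
    rw [hg, pow_add, mul_comm, mul_smul, hy0, smul_zero]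
  have h2 : e ≤ f := by
    by_contra h
    exact hx (hmin x (f + 1) (by omega) hxf1)
  obtain ⟨g, hg⟩ := Nat.exists_eq_add_of_le h2
  have h3 : p ^ e • (v2 • y - v1 • (p ^ g • x)) = 0 := by
    rw [smul_sub, smul_comm, hyv, smul_comm (p ^ e) v1, ← mul_smul (p ^ e), ← pow_add, ← hg, hxv,
      sub_self]
  have h4 := hmin _ e h1 h3
  obtain ⟨u2, hu2, -⟩ := exists_inv_smul (p := p) (x := y) (H.hE y) hv2
  obtain ⟨u1, hu1, -⟩ := exists_inv_smul (p := p) (x := x) (H.hE x) hv1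
  rcases g with _ | g
  · rw [pow_zero, one_smul] at h4
    refine ⟨u1 * v2, ?_⟩
    have h5 : x - (u1 * v2) • y = - (u1 • (v2 • y - v1 • x)) := by
      rw [smul_sub, hu1, mul_smul]; abel
    rw [h5]
    exact neg_mem (zsmul_mem h4 u1)
  · exfalso
    apply hy
    have h5 : v1 • (p ^ (g + 1) • x) ∈ Phi p σ z0 := by
      apply zsmul_mem
      rw [pow_succ', mul_smul]
      exact mem_Phi_p _
    have h6 := add_mem h4 h5
    rw [sub_add_cancel] at h6
    rw [← hu2]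
    exact zsmul_mem h6 u2

/-- A good generator. -/
theorem exists_gen (H : Hyp p m E σ z0) : ∃ b, b ∉ Phi p σ z0 ∧ ev σ (S p) b = 0 ∧
    ∀ x : M, ∃ f : ℤ[X], ∃ j : ℤ, x = ev σ f b + j • z0 := by
  obtain ⟨y, hy, hgen⟩ := exists_top H
  obtain ⟨w, hw⟩ := H.hN y
  refine ⟨y - w • z0, ?_, ?_, ?_⟩
  · intro h
    apply hy
    have := add_mem h (mem_Phi_of_z0 w)
    rwa [sub_add_cancel] at this
  · rw [map_sub, hw, map_zsmul, ev_S_fix σ H.hz0, smul_comm, sub_self]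
  · intro x
    refine gen_lemma σ H.hσ H.hE H.hz0 (y - w • z0) (fun x => ?_) x
    obtain ⟨l, a, c, j, h⟩ := hgen x
    refine ⟨l, a, c, j + l * w, ?_⟩
    rw [sub_eq_iff_eq_add] at h
    rw [h, smul_sub, add_smul, mul_smul]
    abel

theorem p_smul_B {b : M} (hb : ev σ (S p) b = 0) (f : ℤ[X]) :
    ∃ g : ℤ[X], p • ev σ f b = ev σ (X * g) b := by
  obtain ⟨g, hg⟩ := exists_poly p
  have hp2 : p - 1 = (p - 2) + 1 := by have := hp.out.two_le; omega
  have h1 : (C (p : ℤ) : ℤ[X]) = S p + X * (- (X ^ (p - 2)) - C (p : ℤ) * g) := by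
    rw [S, hg, hp2, pow_succ]; ring
  refine ⟨(- (X ^ (p - 2)) - C (p : ℤ) * g) * f, ?_⟩
  have h2 : p • ev σ f b = ev σ (C (p : ℤ)) (ev σ f b) := by
    rw [ev_C]; exact (natCast_zsmul _ _).symm
  rw [h2]
  conv_lhs => rw [h1]
  rw [ev_add, ev_comm, hb, map_zero, zero_add, ← mul_assoc, ev_mul σ _ f]

theorem module_main (H : Hyp p m E σ z0) : m = 0 ∧ ∃ k : ℕ, 1 ≤ k ∧ ∃ b : M, Gen σ b ∧
    ev σ (S p) b = 0 ∧ p ^ k • b = z0 := by
  obtain ⟨b, hb, hNb, hgen⟩ := exists_gen H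
  obtain ⟨k, v, hv, hk1, hk2, hkv, hkf⟩ := dag H hb
  obtain ⟨u, hu, hpu⟩ := exists_inv_smul (p := p) (x := p ^ k • b) (H.hE _) hv
  rw [hkv] at hu
  -- `p ^ k • b = u • p ^ m • z0`
  have hk0 : 1 ≤ k := by
    by_contra h
    have h0 : k = 0 := by omega
    subst h0
    apply hb
    rw [pow_zero, one_smul] at hu
    rw [← hu]
    refine zsmul_mem ?_ u
    have := mem_Phi_of_z0 (p := p) (σ := σ) (z0 := z0) ((p ^ m : ℕ) : ℤ)
    rwa [natCast_zsmul] at this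
  have hτ : p ^ k • ((σ - 1 : AddMonoid.End M) b) = 0 := by
    rw [sub_one_apply, smul_sub, ← map_nsmul, hkf, sub_self]
  have hfix := fix_lemma σ b hNb k hτ hk2
  -- the criterion in terms of `b`
  have hR : ∀ x : M, (∀ j : ℤ, σ (j • x) = j • x → j • x = 0) → ∃ g : ℤ[X],
      x = ev σ (X * g) b := by
    intro x hx
    obtain ⟨a, c, d, j, hxe⟩ := H.hcr x hx
    obtain ⟨fa, ja, ha⟩ := hgen a
    obtain ⟨fc, jc, hc⟩ := hgen c
    obtain ⟨w, hw⟩ := H.hN d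
    have e1 : ev σ X a = ev σ (X * fa) b := by
      rw [ha, map_add, map_zsmul, ev_X' σ z0, H.hz0, sub_self, smul_zero, add_zero, ← ev_mul]
    have e2 : p ^ (m + 1) • c = p • ev σ (C ((p ^ m : ℕ) : ℤ) * fc) b := by
      have e4 : ∀ y : M, ((p ^ m : ℕ) : ℤ) • y = p ^ m • y := fun x => natCast_zsmul _ _
      rw [hc, smul_add, smul_comm (p ^ (m + 1)) jc z0, H.hm1, smul_zero, add_zero, ev_mul, ev_C, e4,
        ← mul_smul, ← pow_succ']
    obtain ⟨g2, hg2⟩ := p_smul_B (p := p) hNb (C ((p ^ m : ℕ) : ℤ) * fc)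
    have e3 : p ^ m • (ev σ (S p) d + j • z0) = j • (p ^ m • z0) := by
      rw [hw, smul_add, ← mul_smul, ← pow_succ, smul_comm (p ^ (m + 1)) w z0, H.hm1, smul_zero,
        zero_add, smul_comm]
    obtain ⟨k', rfl⟩ := Nat.exists_eq_add_of_le hk0
    obtain ⟨g3, hg3⟩ := p_smul_B (p := p) hNb (C ((j * v) * ((p ^ k' : ℕ) : ℤ)))
    have e5 : j • (p ^ m • z0) = p • ev σ (C ((j * v) * ((p ^ k' : ℕ) : ℤ))) b := by
      have e4 : ∀ y : M, ((p ^ k' : ℕ) : ℤ) • y = p ^ k' • y := fun x => natCast_zsmul _ _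
      rw [← hkv, ev_C, mul_smul, mul_smul, e4, pow_add, pow_one, mul_smul]
      rw [smul_comm p j, smul_comm p v]
    refine ⟨fa + g2 + g3, ?_⟩
    rw [hxe, e1, e2, hg2, e3, e5, hg3, mul_add, mul_add, ev_add, ev_add]
  -- `m < k`
  have hmk : m < k := by
    by_contra h
    obtain ⟨g, hg⟩ := Nat.exists_eq_add_of_le (not_lt.1 h)
    set x := b - u • (p ^ g • z0) with hx
    have hxP : x ∉ Phi p σ z0 := by
      intro h1
      apply hb
      have h2 : u • (p ^ g • z0) ∈ Phi p σ z0 := by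
        refine zsmul_mem ?_ u
        have := mem_Phi_of_z0 (p := p) (σ := σ) (z0 := z0) ((p ^ g : ℕ) : ℤ)
        rwa [natCast_zsmul] at this
      have := add_mem h1 h2
      rwa [hx, sub_add_cancel] at this
    have hxk : p ^ k • x = 0 := by
      rw [hx, smul_sub, smul_comm (p ^ k) u, ← mul_smul (p ^ k), ← pow_add, ← hg, hu, sub_self]
    obtain ⟨e, v', hv', he1, he2, hev, hef⟩ := dag H hxP
    have hek : e < k := by
      by_contra h1
      obtain ⟨g', hg'⟩ := Nat.exists_eq_add_of_le (not_lt.1 h1)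
      apply he2
      rw [hg', pow_add, mul_comm, mul_smul, hxk, smul_zero]
    -- `p ^ e • b` is fixed
    have h1 : σ (p ^ e • b) = p ^ e • b := by
      have h2 : p ^ e • b = p ^ e • x + p ^ e • (u • (p ^ g • z0)) := by
        rw [hx, smul_sub, sub_add_cancel]
      rw [h2, map_add, hef, map_nsmul, map_zsmul, map_nsmul, H.hz0]
    have h3 : ev σ (C ((p ^ e : ℕ) : ℤ)) b = p ^ e • b := by rw [ev_C]; exact natCast_zsmul _ _
    obtain ⟨j, hj⟩ := hfix (C ((p ^ e : ℕ) : ℤ)) (by rw [h3]; exact h1)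
    rw [h3] at hj
    obtain ⟨q, hq⟩ := Nat.exists_eq_add_of_lt hek
    -- multiply by `p ^ (q + 0)`: `p ^ k • b = j • p ^ (k + q) • b`
    apply hk2
    have h4 : p ^ (q + 1) • (p ^ e • b) = p ^ k • b := by
      rw [← mul_smul, ← pow_add, hq]; congr 2; omega
    rw [← h4, hj, smul_comm, ← mul_smul (p ^ (q + 1)), ← pow_add]
    have h5 : q + 1 + k = (k + 1) + q := by omega
    rw [h5, pow_add, mul_comm, mul_smul, hk1, smul_zero, smul_zero]
  -- `m = 0`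
  have hm0 : m = 0 := by
    by_contra hm
    obtain ⟨g, hg⟩ := Nat.exists_eq_add_of_lt hmk
    have hg' : k = m + (g + 1) := by omega
    set x := z0 - v • (p ^ (g + 1) • b) with hx
    have hxm : p ^ m • x = 0 := by
      rw [hx, smul_sub, smul_comm (p ^ m) v, ← mul_smul (p ^ m), ← pow_add, ← hg', hkv, sub_self]
    have hxZ : ∀ j : ℤ, σ (j • x) = j • x → j • x = 0 := by
      intro j hj
      by_contra hjx
      obtain ⟨f, hf, r, hr, hrj⟩ := socle_of hxm hjx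
      have h0 : σ (p ^ f • x) = p ^ f • x := by rw [← hrj, map_zsmul, hj]
      have h1 : v • (p ^ (f + (g + 1)) • b) = p ^ f • z0 - p ^ f • x := by
        rw [hx, smul_sub, sub_sub_cancel, smul_comm (p ^ f) v, ← mul_smul (p ^ f), ← pow_add]
      have h3 : ev σ (C (v * ((p ^ (f + (g + 1)) : ℕ) : ℤ))) b =
          v • (p ^ (f + (g + 1)) • b) := by
        rw [ev_C, mul_smul]
        congr 1
        exact natCast_zsmul _ _
      obtain ⟨l, hl⟩ := hfix (C (v * ((p ^ (f + (g + 1)) : ℕ) : ℤ))) (by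
        rw [h3, h1, map_sub, h0, map_nsmul, H.hz0])
      rw [h3] at hl
      obtain ⟨q, hq⟩ := Nat.exists_eq_add_of_lt hf
      apply H.hm2
      rw [← hkv]
      have h4 : v • (p ^ k • b) = p ^ (q + 1) • (v • (p ^ (f + (g + 1)) • b)) := by
        rw [smul_comm (p ^ (q + 1)) v, ← mul_smul (p ^ (q + 1)), ← pow_add]
        congr 3
        omega
      rw [h4, hl, smul_comm, ← mul_smul (p ^ (q + 1)), ← pow_add]
      have h5 : q + 1 + k = (k + 1) + q := by omega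
      rw [h5, pow_add, mul_comm, mul_smul, hk1, smul_zero, smul_zero]
    obtain ⟨q, hq⟩ := hR x hxZ
    have h1 : ev σ (X * q + C (v * ((p ^ (g + 1) : ℕ) : ℤ))) b = z0 := by
      rw [ev_add, ← hq, ev_C, mul_smul, hx]
      have : ((p ^ (g + 1) : ℕ) : ℤ) • b = p ^ (g + 1) • b := natCast_zsmul _ _
      rw [this, sub_add_cancel]
    obtain ⟨l, hl⟩ := hfix _ (by rw [h1]; exact H.hz0)
    rw [h1] at hl
    apply H.hm2
    obtain ⟨m', rfl⟩ := Nat.exists_eq_succ_of_ne_zero hm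
    have h2 : p • z0 = 0 := by
      rw [hl, smul_comm, ← mul_smul, ← pow_succ', hk1, smul_zero]
    rw [Nat.succ_eq_add_one, pow_succ, mul_smul, h2, smul_zero]
  refine ⟨hm0, k, hk0, v • b, ?_, by rw [map_zsmul, hNb, smul_zero], ?_⟩
  · intro x
    obtain ⟨f, j, hx⟩ := hgen x
    obtain ⟨w, hw, -⟩ := exists_inv_smul (p := p) (x := b) (H.hE _) hv
    rw [hm0, pow_zero, one_smul] at hkv
    refine ⟨f * C w + C (j * ((p ^ k : ℕ) : ℤ)), ?_⟩
    have e4 : ∀ y : M, ((p ^ k : ℕ) : ℤ) • y = p ^ k • y := fun x => natCast_zsmul _ _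
    rw [ev_add, ev_mul, ev_C, hw, ev_C, mul_smul, e4, hx, ← hkv, smul_comm (p ^ k) v]
  · rw [smul_comm, hkv, hm0, pow_zero, one_smul]

end Thm

end Pool.Agent.Helper35.CD
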