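import Mathlib
import Pool.Agent.Helper35.CD.Mod3

set_option autoImplicit false

/-! From groups with an abelian maximal subgroup to modules. -/

open Polynomial

open scoped commutatorElement

namespace Pool.Agent.Helper35.CD

/-- An additive copy of the abelian subgroup `A` on which `s` acts by conjugation. -/
structure IF {G : Type} [Group G] (A : Subgroup G) (s : G) (M : Type) [AddCommGroup M]
    (σ : AddMonoid.End M) where
  φ : M → G
  map_add : ∀ x y, φ (x + y) = φ x * φ y
  inj : Function.Injective φ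
  mem : ∀ x, φ x ∈ A
  surj : ∀ g ∈ A, ∃ x, φ x = g
  act : ∀ x, φ (σ x) = s * φ x * s⁻¹

theorem IF.ex {G : Type} [Group G] (A : Subgroup G) [A.Normal]
    (hAc : ∀ x ∈ A, ∀ y ∈ A, x * y = y * x) (s : G) :
    ∃ (M : Type) (_ : AddCommGroup M) (σ : AddMonoid.End M), Nonempty (IF A s M σ) := by
  let _ : CommGroup A := { (inferInstance : Group A) with
    mul_comm := fun a b => Subtype.ext (hAc a a.2 b b.2) }
  let c : A →* A := (MulAut.conjNormal s : MulAut A).toMonoidHom
  refine ⟨Additive A, inferInstance, MonoidHom.toAdditive c, ⟨?_⟩⟩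
  exact
    { φ := fun m => ((Additive.toMul m : A) : G)
      map_add := fun x y => rfl
      inj := fun x y h => Subtype.ext h
      mem := fun x => (Additive.toMul x : A).2
      surj := fun g hg => ⟨Additive.ofMul ⟨g, hg⟩, rfl⟩
      act := fun x => MulAut.conjNormal_apply s (Additive.toMul x : A) }

section IFL

variable {G : Type} [Group G] {A : Subgroup G} {s : G} {M : Type} [AddCommGroup M]
  {σ : AddMonoid.End M} (I : IF A s M σ)

theorem IF.zero : I.φ 0 = 1 := by
  have h := I.map_add 0 0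
  rw [add_zero] at h
  exact left_eq_mul.1 h

theorem IF.neg (x : M) : I.φ (-x) = (I.φ x)⁻¹ := by
  have h := I.map_add (-x) x
  rw [neg_add_cancel, I.zero] at h
  exact eq_inv_of_mul_eq_one_left h.symm

theorem IF.nsmul (n : ℕ) (x : M) : I.φ (n • x) = (I.φ x) ^ n := by
  induction n with
  | zero => rw [zero_smul, pow_zero, I.zero]
  | succ n ih => rw [succ_nsmul, I.map_add, ih, pow_succ]

theorem IF.zsmul (j : ℤ) (x : M) : I.φ (j • x) = (I.φ x) ^ j := by
  rcases j with n | n
  · rw [Int.ofNat_eq_natCast, natCast_zsmul, I.nsmul, zpow_natCast]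
  · rw [negSucc_zsmul, I.neg, I.nsmul, zpow_negSucc]

theorem IF.sub (x y : M) : I.φ (x - y) = I.φ x * (I.φ y)⁻¹ := by
  rw [sub_eq_add_neg, I.map_add, I.neg]

theorem IF.act_pow (n : ℕ) (x : M) :
    I.φ ((σ ^ n : AddMonoid.End M) x) = s ^ n * I.φ x * (s ^ n)⁻¹ := by
  induction n generalizing x with
  | zero => simp
  | succ n ih =>
    have : (σ ^ (n + 1) : AddMonoid.End M) x = (σ ^ n : AddMonoid.End M) (σ x) := by
      rw [pow_succ]; rfl
    rw [this, ih, I.act, pow_succ]
    group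

theorem IF.norm (n : ℕ) (x : M) : I.φ (∑ i ∈ Finset.range n, (σ ^ i : AddMonoid.End M) x) =
    ((List.range n).map fun i => s ^ i * I.φ x * (s ^ i)⁻¹).prod := by
  induction n with
  | zero => simp [I.zero]
  | succ n ih =>
    rw [Finset.sum_range_succ, I.map_add, ih, I.act_pow, List.range_succ, List.map_append,
      List.prod_append]
    simp

include I in
theorem IF.card : Nat.card M = Nat.card A := by
  apply Nat.card_congr
  exact Equiv.ofBijective (fun x => (⟨I.φ x, I.mem x⟩ : A))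
    ⟨fun x y h => I.inj (congrArg Subtype.val h), fun g => by
      obtain ⟨x, hx⟩ := I.surj g g.2
      exact ⟨x, Subtype.ext hx⟩⟩

theorem IF.ev_mem {K : Subgroup G} (hs : s ∈ K) {b : M} (hb : I.φ b ∈ K) (f : ℤ[X]) :
    I.φ (ev σ f b) ∈ K := by
  induction f using Polynomial.induction_on' with
  | add f g hf hg => rw [ev_add, I.map_add]; exact K.mul_mem hf hg
  | monomial n a =>
    rw [← C_mul_X_pow_eq_monomial, ev_mul, ev_C, I.zsmul]
    apply K.zpow_mem
    induction n generalizing b with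
    | zero => rw [pow_zero, ev_one]; exact hb
    | succ n ih =>
      rw [pow_succ, ev_mul]
      apply ih
      rw [ev_X', I.sub, I.act]
      exact K.mul_mem (K.mul_mem (K.mul_mem hs hb) (K.inv_mem hs)) (K.inv_mem hb)

theorem mul_pow_eq {G : Type} [Group G] (a s : G) (n : ℕ) :
    (a * s) ^ n = ((List.range n).map fun i => s ^ i * a * (s ^ i)⁻¹).prod * s ^ n := by
  induction n with
  | zero => simp
  | succ n ih =>
    rw [pow_succ, ih, List.range_succ, List.map_append, List.prod_append]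
    simp only [List.map_cons, List.map_nil, List.prod_cons, List.prod_nil, mul_one]
    rw [pow_succ]
    group

end IFL

section Index

variable {p : ℕ} [hp : Fact p.Prime] {G : Type} [Group G] {A : Subgroup G} [hAn : A.Normal]

theorem cover (hi : A.index = p) {t : G} (ht : t ∉ A) (g : G) :
    ∃ i : ℕ, ∃ a ∈ A, g = t ^ i * a := by
  have hcard : Nat.card (G ⧸ A) = p := hi
  have ht1 : (QuotientGroup.mk t : G ⧸ A) ≠ 1 := by
    intro h
    exact ht ((QuotientGroup.eq_one_iff t).1 h)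
  have hfin : Finite (G ⧸ A) := Nat.finite_of_card_ne_zero (by rw [hcard]; exact hp.out.ne_zero)
  have h1 : (QuotientGroup.mk g : G ⧸ A) ∈ Subgroup.zpowers (QuotientGroup.mk t : G ⧸ A) :=
    mem_zpowers_of_prime_card hcard ht1
  rw [← mem_powers_iff_mem_zpowers, Submonoid.mem_powers_iff] at h1
  obtain ⟨i, h⟩ := h1
  refine ⟨i, (t ^ i)⁻¹ * g, ?_, by group⟩
  rw [← QuotientGroup.mk_pow, QuotientGroup.eq] at h
  exact h

omit hp in
theorem pow_p_mem (hi : A.index = p) (g : G) : g ^ p ∈ A := by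
  rw [← hi]; exact Subgroup.pow_index_mem A g

theorem center_le (hi : A.index = p) (hAc : ∀ x ∈ A, ∀ y ∈ A, x * y = y * x)
    (hna : ∃ a b : G, a * b ≠ b * a) : Subgroup.center G ≤ A := by
  intro z hz
  by_contra hzA
  obtain ⟨a, b, hab⟩ := hna
  apply hab
  have hz' := fun g => Subgroup.mem_center_iff.1 (Subgroup.pow_mem _ hz g)
  obtain ⟨i, a', ha', rfl⟩ := cover hi hzA a
  obtain ⟨j, b', hb', rfl⟩ := cover hi hzA b
  have h1 := hz' i
  have h2 := hz' j
  calc z ^ i * a' * (z ^ j * b') = z ^ i * (a' * z ^ j) * b' := by group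
    _ = z ^ i * (z ^ j * a') * b' := by rw [h2]
    _ = z ^ i * z ^ j * (a' * b') := by group
    _ = z ^ j * z ^ i * (b' * a') := by rw [hAc a' ha' b' hb', h1]
    _ = z ^ j * (z ^ i * b') * a' := by group
    _ = z ^ j * (b' * z ^ i) * a' := by rw [h1]
    _ = z ^ j * b' * (z ^ i * a') := by group

theorem mem_center_of (hi : A.index = p) (hAc : ∀ x ∈ A, ∀ y ∈ A, x * y = y * x) {s : G}
    (hs : s ∉ A) {x : G} (hx : x ∈ A) (hxs : s * x * s⁻¹ = x) : x ∈ Subgroup.center G := by
  have hxs' : s * x = x * s := by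
    rw [mul_inv_eq_iff_eq_mul] at hxs
    exact hxs
  have hxs2 : ∀ i : ℕ, s ^ i * x = x * s ^ i := fun i =>
    ((show Commute s x from hxs').pow_left i).eq
  rw [Subgroup.mem_center_iff]
  intro g
  obtain ⟨i, a, ha, rfl⟩ := cover hi hs g
  calc s ^ i * a * x = s ^ i * (a * x) := by group
    _ = s ^ i * x * a := by rw [hAc a ha x hx]; group
    _ = x * (s ^ i * a) := by rw [hxs2]; group

theorem exists_pow_eq (hi : A.index = p) (hG : IsPGroup p G) {s : G} (hs : s ∉ A) {g : G}
    (hg : g ∉ A) : ∃ l : ℤ, ∃ a ∈ A, g = (a * s) ^ l := by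
  obtain ⟨i, a, ha, h⟩ := cover hi hg s
  have hpi : ¬ p ∣ i := by
    rintro ⟨j, rfl⟩
    apply hs
    rw [h, pow_mul]
    exact A.mul_mem (A.pow_mem (pow_p_mem hi g) j) ha
  obtain ⟨e, he⟩ := hG g
  have h1 : IsCoprime ((i : ℕ) : ℤ) ((p ^ e : ℕ) : ℤ) := by
    rw [Nat.isCoprime_iff_coprime]
    exact (Nat.Coprime.pow_left e ((Nat.Prime.coprime_iff_not_dvd hp.out).2 hpi)).symm
  obtain ⟨u, v, huv⟩ := h1
  have h2 : g ^ i = (g ^ i * a⁻¹ * (g ^ i)⁻¹) * s := by rw [h]; group
  refine ⟨u, g ^ i * a⁻¹ * (g ^ i)⁻¹, hAn.conj_mem _ (A.inv_mem ha) _, ?_⟩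
  rw [← h2]
  calc g = g ^ (1 : ℤ) := (zpow_one g).symm
    _ = g ^ (((i : ℕ) : ℤ) * u + ((p ^ e : ℕ) : ℤ) * v) := by rw [← huv]; ring_nf
    _ = (g ^ i) ^ u * (g ^ (p ^ e)) ^ v := by
      rw [zpow_add, zpow_mul, zpow_mul, zpow_natCast, zpow_natCast]
    _ = (g ^ i) ^ u := by rw [he, one_zpow, mul_one]

end Index

end Pool.Agent.Helper35.CD
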