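import Mathlib
import Pool.Agent.Helper35.CD.Grp
import Pool.Agent.Helper94.CoD.Crit

set_option autoImplicit false

/-! Co-Dedekindian groups with an abelian maximal subgroup. -/

open Polynomial

open scoped commutatorElement

namespace Pool.Agent.Helper35.CD

open Pool.Agent.Helper77.CD Pool.Agent.Helper94.CoD

section Modl

variable {p : ℕ} [hp : Fact p.Prime] {M : Type} [AddCommGroup M] {σ : AddMonoid.End M}

theorem ev_pow_sub (i : ℕ) (y : M) :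
    (σ ^ i : AddMonoid.End M) y - y = ev σ X (ev σ (S i) y) := by
  have h := mul_geom_sum (X + 1 : ℤ[X]) i
  rw [add_sub_cancel_right] at h
  rw [← ev_mul, S, h, ev_sub, ev_X1_pow, ev_one]

theorem mk_hyp {m E : ℕ} {z0 : M} (hE : ∀ x : M, p ^ E • x = 0) (hσ : σ ^ p = 1)
    (hz0 : σ z0 = z0) (ζ : M) (hζ : σ ζ = ζ) (hZ : ∀ z, σ z = z → ∃ j : ℤ, z = j • ζ)
    (hN0 : ∀ a, ev σ (S p) a ≠ z0) (hm1 : p ^ (m + 1) • ζ = 0) (hm2 : p ^ m • ζ ≠ 0)
    (hcr : ∀ x : M, (∀ j : ℤ, σ (j • x) = j • x → j • x = 0) →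
      ∃ a c d : M, ∃ j : ℤ, x = ev σ X a + p ^ (m + 1) • c + p ^ m • (ev σ (S p) d + j • z0))
    (hne : ∃ a, σ a ≠ a) : Hyp p m E σ z0 := by
  have e3 : ∀ y : M, (p : ℤ) • y = p • y := fun x => natCast_zsmul _ _
  obtain ⟨j0, hj0⟩ := hZ z0 hz0
  have hpj0 : ¬ (p : ℤ) ∣ j0 := by
    rintro ⟨j, rfl⟩
    apply hN0 (j • ζ)
    rw [ev_S_fix σ (by rw [map_zsmul, hζ]), hj0, mul_smul, e3]
  obtain ⟨v0, hv0, -⟩ := exists_inv_smul (p := p) (x := ζ) (hE ζ) hpj0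
  rw [← hj0] at hv0
  have hZ0 : ∀ z, σ z = z → ∃ j : ℤ, z = j • z0 := by
    intro z hz
    obtain ⟨j, hj⟩ := hZ z hz
    exact ⟨j * v0, by rw [mul_smul, hv0, hj]⟩
  refine ⟨hE, hσ, hz0, hZ0, ?_, ?_, ?_, hcr, hne⟩
  · intro a
    have h1 : σ (ev σ (S p) a) = ev σ (S p) a := by
      have := ev_XS σ hσ a
      rw [ev_mul, ev_X', sub_eq_zero] at this
      exact this
    obtain ⟨j, hj⟩ := hZ0 _ h1
    by_cases hpj : (p : ℤ) ∣ j
    · obtain ⟨w, rfl⟩ := hpj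
      exact ⟨w, by rw [hj, mul_smul, e3]⟩
    · exfalso
      obtain ⟨v, hv, -⟩ := exists_inv_smul (p := p) (x := z0) (hE z0) hpj
      apply hN0 (v • a)
      rw [map_zsmul, hj, hv]
  · rw [hj0, smul_comm, hm1, smul_zero]
  · intro h
    apply hm2
    rw [← hv0, smul_comm, h, smul_zero]

/-- The subgroup of the module corresponding to `G' G ^ n`. -/
def RM (p m : ℕ) (σ : AddMonoid.End M) (z0 : M) : AddSubgroup M where
  carrier := {x | ∃ a c d : M, ∃ j : ℤ,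
    x = ev σ X a + p ^ (m + 1) • c + p ^ m • (ev σ (S p) d + j • z0)}
  add_mem' := by
    rintro _ _ ⟨a, c, d, j, rfl⟩ ⟨a', c', d', j', rfl⟩
    refine ⟨a + a', c + c', d + d', j + j', ?_⟩
    rw [map_add, map_add, smul_add, smul_add, smul_add, add_smul, smul_add, smul_add, smul_add]
    abel
  zero_mem' := ⟨0, 0, 0, 0, by simp⟩
  neg_mem' := by
    rintro _ ⟨a, c, d, j, rfl⟩
    refine ⟨-a, -c, -d, -j, ?_⟩
    rw [map_neg, map_neg, smul_neg, neg_smul, ← neg_add (ev σ (S p) d), smul_neg]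
    abel

end Modl

section Fwd

variable {p : ℕ} [hp : Fact p.Prime] {G : Type} [Group G] {A : Subgroup G} [hAn : A.Normal]
  {s : G} {M : Type} [AddCommGroup M] {σ : AddMonoid.End M} (I : IF A s M σ)

/-- The image of a subgroup of the module. -/
def IF.img {G : Type} [Group G] {A : Subgroup G} {s : G} {M : Type} [AddCommGroup M]
    {σ : AddMonoid.End M} (I : IF A s M σ) (R : AddSubgroup M) : Subgroup G where
  carrier := {g | ∃ x ∈ R, I.φ x = g}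
  mul_mem' := by
    rintro _ _ ⟨x, hx, rfl⟩ ⟨y, hy, rfl⟩
    exact ⟨x + y, R.add_mem hx hy, I.map_add x y⟩
  one_mem' := ⟨0, R.zero_mem, I.zero⟩
  inv_mem' := by
    rintro _ ⟨x, hx, rfl⟩
    exact ⟨-x, R.neg_mem hx, I.neg x⟩

theorem comm_eq (hi : A.index = p) (hs : s ∉ A) (g h : G) :
    ∃ x, ⁅g, h⁆ = I.φ (ev σ X x) := by
  obtain ⟨i, a, ha, rfl⟩ := cover hi hs g
  obtain ⟨j, b, hb, rfl⟩ := cover hi hs h
  obtain ⟨α, rfl⟩ := I.surj a ha
  obtain ⟨β, rfl⟩ := I.surj b hb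
  refine ⟨ev σ (S i) ((σ ^ j : AddMonoid.End M) β) - ev σ (S j) ((σ ^ i : AddMonoid.End M) α), ?_⟩
  rw [map_sub, ← ev_pow_sub, ← ev_pow_sub]
  have h1 : ⁅s ^ i * I.φ α, s ^ j * I.φ β⁆ =
      I.φ ((σ ^ i : AddMonoid.End M) α + (σ ^ (i + j) : AddMonoid.End M) (β - α) -
        (σ ^ j : AddMonoid.End M) β) := by
    rw [I.sub, I.map_add, I.act_pow, I.act_pow, I.act_pow, I.sub, commutatorElement_def]
    group
  rw [h1]
  congr 1
  have h2 : (σ ^ (i + j) : AddMonoid.End M) β =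
      (σ ^ i : AddMonoid.End M) ((σ ^ j : AddMonoid.End M) β) := by rw [pow_add]; rfl
  have h3 : (σ ^ (i + j) : AddMonoid.End M) α =
      (σ ^ j : AddMonoid.End M) ((σ ^ i : AddMonoid.End M) α) := by
    rw [add_comm, pow_add]; rfl
  rw [map_sub, h2, h3]
  abel

theorem powComm_le (hi : A.index = p) (hG : IsPGroup p G) (hs : s ∉ A) {z0 : M}
    (hz0 : I.φ z0 = s ^ p) (m : ℕ) : powComm G (p ^ (m + 1)) ≤ I.img (RM p m σ z0) := by
  refine sup_le ?_ ?_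
  · rw [commutator_def, Subgroup.commutator_le]
    intro g _ h _
    obtain ⟨x, hx⟩ := comm_eq I hi hs g h
    exact ⟨ev σ X x, ⟨x, 0, 0, 0, by simp⟩, hx.symm⟩
  · rw [Subgroup.closure_le]
    rintro _ ⟨g, rfl⟩
    by_cases hg : g ∈ A
    · obtain ⟨α, rfl⟩ := I.surj g hg
      exact ⟨p ^ (m + 1) • α, ⟨0, α, 0, 0, by simp⟩, I.nsmul _ _⟩
    · obtain ⟨l, a, ha, rfl⟩ := exists_pow_eq hi hG hs hg
      obtain ⟨α, rfl⟩ := I.surj a ha
      have h1 : (I.φ α * s) ^ p ^ (m + 1) = I.φ (p ^ m • (ev σ (S p) α + (1 : ℤ) • z0)) := by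
        rw [pow_succ', pow_mul, mul_pow_eq, ← I.norm, norm_eq_ev, ← hz0, ← I.map_add, I.nsmul,
          one_smul]
      have h2 : ((I.φ α * s) ^ l) ^ p ^ (m + 1) = ((I.φ α * s) ^ p ^ (m + 1)) ^ l := by
        rw [← zpow_natCast, ← zpow_natCast, ← zpow_mul, ← zpow_mul, mul_comm]
      rw [h2, h1]
      apply Subgroup.zpow_mem
      exact ⟨_, ⟨0, 0, α, 1, by simp⟩, rfl⟩

end Fwd

end Pool.Agent.Helper35.CD
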