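import Mathlib
import Pool.Agent.Helper35.CD.Defs
import Pool.Agent.Helper35.CD.Fwd

set_option autoImplicit false

/-! The groups given by the presentation are co-Dedekindian. -/

open Polynomial

open scoped commutatorElement

namespace Pool.Agent.Helper35.CD

open Pool.Agent.Helper77.CD Pool.Agent.Helper94.CoD

section BB

variable {p : ℕ} [hp : Fact p.Prime] {G : Type} [Group G] {k : ℕ} {s b : G}

/-- The subgroup generated by the conjugates of `b` under the powers of `s`. -/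
def BB (s b : G) : Subgroup G := Subgroup.closure {x | ∃ i : ℤ, x = s ^ i * b * (s ^ i)⁻¹}

theorem b_mem : b ∈ BB s b := Subgroup.subset_closure ⟨0, by simp⟩

theorem conj_mem' {x : G} (hx : x ∈ BB s b) (j : ℤ) : s ^ j * x * (s ^ j)⁻¹ ∈ BB s b := by
  induction hx using Subgroup.closure_induction with
  | mem x hx =>
    obtain ⟨i, rfl⟩ := hx
    exact Subgroup.subset_closure ⟨j + i, by rw [zpow_add]; group⟩
  | one => rw [mul_one, mul_inv_cancel]; exact Subgroup.one_mem _
  | mul x y _ _ hx hy =>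
    have h : s ^ j * (x * y) * (s ^ j)⁻¹ = (s ^ j * x * (s ^ j)⁻¹) * (s ^ j * y * (s ^ j)⁻¹) := by
      group
    rw [h]
    exact Subgroup.mul_mem _ hx hy
  | inv x _ hx =>
    have h : s ^ j * x⁻¹ * (s ^ j)⁻¹ = (s ^ j * x * (s ^ j)⁻¹)⁻¹ := by group
    rw [h]
    exact Subgroup.inv_mem _ hx

theorem BB_normal (hgen : Subgroup.closure {s, b} = ⊤) : (BB s b).Normal := by
  have h : ∀ g : G, (∀ x ∈ BB s b, g * x * g⁻¹ ∈ BB s b) ∧
      (∀ x ∈ BB s b, g⁻¹ * x * g ∈ BB s b) := by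
    intro g
    have hg : g ∈ Subgroup.closure {s, b} := by rw [hgen]; exact Subgroup.mem_top g
    induction hg using Subgroup.closure_induction with
    | mem g hg =>
      rcases hg with rfl | hg
      · refine ⟨fun x hx => ?_, fun x hx => ?_⟩
        · have := conj_mem' hx 1
          rwa [zpow_one] at this
        · have := conj_mem' hx (-1)
          rwa [zpow_neg_one, inv_inv] at this
      · have hg' : g = b := hg
        subst hg'
        exact ⟨fun x hx => Subgroup.mul_mem _ (Subgroup.mul_mem _ b_mem hx)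
          (Subgroup.inv_mem _ b_mem), fun x hx => Subgroup.mul_mem _
          (Subgroup.mul_mem _ (Subgroup.inv_mem _ b_mem) hx) b_mem⟩
    | one => exact ⟨fun x hx => by simpa using hx, fun x hx => by simpa using hx⟩
    | mul g h _ _ hg hh =>
      refine ⟨fun x hx => ?_, fun x hx => ?_⟩
      · have := hg.1 _ (hh.1 x hx)
        have e : g * h * x * (g * h)⁻¹ = g * (h * x * h⁻¹) * g⁻¹ := by group
        rw [e]; exact this
      · have := hh.2 _ (hg.2 x hx)
        have e : (g * h)⁻¹ * x * (g * h) = h⁻¹ * (g⁻¹ * x * g) * h := by group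
        rw [e]; exact this
    | inv g _ hg =>
      exact ⟨fun x hx => by rw [inv_inv]; exact hg.2 x hx,
        fun x hx => by rw [inv_inv]; exact hg.1 x hx⟩
  exact ⟨fun x hx g => (h g).1 x hx⟩

omit hp in
theorem comm_int (hrel : Rel p k s b) (n : ℤ) :
    (s ^ n * b * (s ^ n)⁻¹) * b = b * (s ^ n * b * (s ^ n)⁻¹) := by
  obtain ⟨l, rfl | rfl⟩ := n.eq_nat_or_neg
  · have := hrel.1 l
    rw [zpow_natCast]
    exact this
  · have h := hrel.1 l
    have h2 : s ^ (-(l : ℤ)) = (s ^ l)⁻¹ := by rw [zpow_neg, zpow_natCast]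
    rw [h2, inv_inv]
    have h3 := congrArg (fun y => (s ^ l)⁻¹ * y * s ^ l) h
    have e1 : (s ^ l)⁻¹ * (s ^ l * b * (s ^ l)⁻¹ * b) * s ^ l = b * ((s ^ l)⁻¹ * b * s ^ l) := by
      group
    have e2 : (s ^ l)⁻¹ * (b * (s ^ l * b * (s ^ l)⁻¹)) * s ^ l = (s ^ l)⁻¹ * b * s ^ l * b := by
      group
    rw [e1, e2] at h3
    exact h3.symm

omit hp in
theorem BB_comm (hrel : Rel p k s b) : ∀ x ∈ BB s b, ∀ y ∈ BB s b, x * y = y * x := by
  have h1 : ∀ i j : ℤ, (s ^ i * b * (s ^ i)⁻¹) * (s ^ j * b * (s ^ j)⁻¹) =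
      (s ^ j * b * (s ^ j)⁻¹) * (s ^ i * b * (s ^ i)⁻¹) := by
    intro i j
    have h := comm_int hrel (i - j)
    have h3 := congrArg (fun y => s ^ j * y * (s ^ j)⁻¹) h
    have e1 : s ^ j * (s ^ (i - j) * b * (s ^ (i - j))⁻¹ * b) * (s ^ j)⁻¹ =
        (s ^ i * b * (s ^ i)⁻¹) * (s ^ j * b * (s ^ j)⁻¹) := by
      rw [zpow_sub]; group
    have e2 : s ^ j * (b * (s ^ (i - j) * b * (s ^ (i - j))⁻¹)) * (s ^ j)⁻¹ =
        (s ^ j * b * (s ^ j)⁻¹) * (s ^ i * b * (s ^ i)⁻¹) := by
      rw [zpow_sub]; group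
    rw [e1, e2] at h3
    exact h3
  have h2 : ∀ y ∈ BB s b, ∀ i : ℤ, (s ^ i * b * (s ^ i)⁻¹) * y = y * (s ^ i * b * (s ^ i)⁻¹) := by
    intro y hy i
    induction hy using Subgroup.closure_induction with
    | mem y hy => obtain ⟨j, rfl⟩ := hy; exact h1 i j
    | one => rw [mul_one, one_mul]
    | mul x y _ _ hx hy => exact ((show Commute _ x from hx).mul_right hy).eq
    | inv x _ hx => exact ((show Commute _ x from hx).inv_right).eq
  intro x hx y hy
  induction hx using Subgroup.closure_induction with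
  | mem x hx => obtain ⟨i, rfl⟩ := hx; exact h2 y hy i
  | one => rw [mul_one, one_mul]
  | mul x z _ _ hx hz => exact ((show Commute x y from hx).mul_left hz).eq
  | inv x _ hx => exact ((show Commute x y from hx).inv_left).eq

omit hp in
theorem sp_mem (hrel : Rel p k s b) : s ^ p ∈ BB s b := by
  rw [hrel.2.2]; exact Subgroup.pow_mem _ b_mem _

theorem BB_index (hrel : Rel p k s b) (hgen : Subgroup.closure {s, b} = ⊤) (hs : s ∉ BB s b) :
    (BB s b).index = p := by
  have hN := BB_normal hgen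
  have h1 : (QuotientGroup.mk s : G ⧸ BB s b) ≠ 1 := fun h =>
    hs ((QuotientGroup.eq_one_iff s).1 h)
  have h2 : (QuotientGroup.mk s : G ⧸ BB s b) ^ p = 1 := by
    rw [← QuotientGroup.mk_pow]
    exact (QuotientGroup.eq_one_iff _).2 (sp_mem hrel)
  have h3 : orderOf (QuotientGroup.mk s : G ⧸ BB s b) = p := orderOf_eq_prime h2 h1
  have h4 : Subgroup.zpowers (QuotientGroup.mk s : G ⧸ BB s b) = ⊤ := by
    rw [eq_top_iff]
    rintro q -
    obtain ⟨g, rfl⟩ := QuotientGroup.mk_surjective q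
    have hg : g ∈ Subgroup.closure {s, b} := by rw [hgen]; exact Subgroup.mem_top g
    induction hg using Subgroup.closure_induction with
    | mem g hg =>
      rcases hg with rfl | hg
      · exact Subgroup.mem_zpowers _
      · have hg' : g = b := hg
        rw [hg', (QuotientGroup.eq_one_iff b).2 b_mem]
        exact Subgroup.one_mem _
    | one => exact Subgroup.one_mem _
    | mul x y _ _ hx hy => exact Subgroup.mul_mem _ hx hy
    | inv x _ hx => exact Subgroup.inv_mem _ hx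
  rw [Subgroup.index, ← Subgroup.card_top (G := G ⧸ BB s b), ← h4, Nat.card_zpowers, h3]

theorem ev_neg {M : Type} [AddCommGroup M] (σ : AddMonoid.End M) (f : ℤ[X]) (m : M) :
    ev σ (-f) m = - ev σ f m := by
  rw [ev, map_neg]; rfl

theorem BB_gen (hrel : Rel p k s b) {M : Type} [AddCommGroup M] {σ : AddMonoid.End M}
    (I : IF (BB s b) s M σ) {β : M} (hβ : I.φ β = b) : Gen σ β := by
  intro x
  suffices h : ∀ g ∈ BB s b, ∃ f : ℤ[X], g = I.φ (ev σ f β) by
    obtain ⟨f, hf⟩ := h (I.φ x) (I.mem x)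
    exact ⟨f, I.inj hf⟩
  intro g hg
  induction hg using Subgroup.closure_induction with
  | mem g hg =>
    obtain ⟨i, rfl⟩ := hg
    have hp0 : (p : ℤ) ≠ 0 := by exact_mod_cast hp.out.ne_zero
    have h1 : (((i % p).toNat : ℕ) : ℤ) = i % p := Int.toNat_of_nonneg (Int.emod_nonneg i hp0)
    refine ⟨(X + 1) ^ (i % p).toNat, ?_⟩
    rw [ev_X1_pow, I.act_pow, hβ, ← zpow_natCast, h1]
    have h2 : (s ^ p) * b = b * s ^ p := by
      rw [hrel.2.2, ← pow_succ, ← pow_succ']
    have h3 : (s ^ p) ^ (i / p) * b = b * (s ^ p) ^ (i / p) :=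
      ((show Commute (s ^ p) b from h2).zpow_left (i / p)).eq
    have h4 : s ^ i = s ^ (i % p) * (s ^ p) ^ (i / p) := by
      rw [← zpow_natCast s p, ← zpow_mul, ← zpow_add, Int.emod_add_mul_ediv]
    have h5 : (s ^ p) ^ (i / p) * b * ((s ^ p) ^ (i / p))⁻¹ = b := by
      rw [h3, mul_inv_cancel_right]
    calc s ^ i * b * (s ^ i)⁻¹ =
        s ^ (i % p) * ((s ^ p) ^ (i / p) * b * ((s ^ p) ^ (i / p))⁻¹) * (s ^ (i % p))⁻¹ := by
          rw [h4, mul_inv_rev]; simp only [mul_assoc]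
      _ = _ := by rw [h5]
  | one => exact ⟨0, by rw [ev_zero, I.zero]⟩
  | mul x y _ _ hx hy =>
    obtain ⟨f, hf⟩ := hx
    obtain ⟨g, hg⟩ := hy
    exact ⟨f + g, by rw [ev_add, I.map_add, hf, hg]⟩
  | inv x _ hx =>
    obtain ⟨f, hf⟩ := hx
    exact ⟨-f, by rw [ev_neg, I.neg, hf]⟩

end BB

end Pool.Agent.Helper35.CD
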