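import Mathlib
import Pool.Agent.Helper35.CD.Bwd

set_option autoImplicit false

/-! The groups given by the presentation are co-Dedekindian. -/

open Polynomial

open scoped commutatorElement

namespace Pool.Agent.Helper35.CD

open Pool.Agent.Helper77.CD Pool.Agent.Helper94.CoD

section Bwd

variable {p : ℕ} [hp : Fact p.Prime] {G : Type} [Group G] {k : ℕ} {s b : G}

theorem ev_fix' {M : Type} [AddCommGroup M] (σ : AddMonoid.End M) {z : M} (hz : σ z = z)
    (f : ℤ[X]) : ev σ f z = f.coeff 0 • z := by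
  conv_lhs => rw [← divX_mul_X_add f]
  rw [ev_add, ev_mul, ev_X', hz, sub_self, map_zero, zero_add, ev_C]

theorem backward (hk : 1 ≤ k) (hrel : Rel p k s b) (hgen : Subgroup.closure {s, b} = ⊤)
    (hs : s ∉ BB s b) (hb : b ^ (p ^ k) ≠ 1) :
    Nat.card G = p ^ (k * (p - 1) + 2) ∧ s * b ≠ b * s ∧
      (∃ A : Subgroup G, A.index = p ∧ ∀ x ∈ A, ∀ y ∈ A, x * y = y * x) ∧
      s ^ p ∈ Subgroup.center G ∧ (s ^ p) ^ p = 1 ∧ IsCoDedekindian G := by
  have hN := BB_normal hgen
  have hc := BB_comm hrel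
  have hi := BB_index hrel hgen hs
  obtain ⟨M, _, σ, ⟨I⟩⟩ := IF.ex (BB s b) hc s
  obtain ⟨β, hβ⟩ := I.surj b b_mem
  have hgenM := BB_gen hrel I hβ
  have hNβ : ev σ (S p) β = 0 := I.inj (by
    rw [← norm_eq_ev, I.norm, I.zero, hβ]; exact hrel.2.1)
  have hN0 : ∀ x : M, ev σ (S p) x = 0 := by
    intro x
    obtain ⟨f, rfl⟩ := hgenM x
    rw [ev_comm, hNβ, map_zero]
  have hN' : ∀ x : M, ∑ i ∈ Finset.range p, (σ ^ i : AddMonoid.End M) x = 0 := by
    intro x
    rw [norm_eq_ev, hN0]
  set z : M := p ^ k • β with hzdef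
  have hz : I.φ z = s ^ p := by rw [hzdef, I.nsmul, hβ, hrel.2.2]
  have hσz : σ z = z := I.inj (by rw [I.act, hz]; group)
  have hz0 : z ≠ 0 := by
    intro h
    apply hb
    rw [← hβ, ← I.nsmul, ← hzdef, h, I.zero]
  have hτ : p ^ k • ((σ - 1 : AddMonoid.End M) β) = 0 := by
    rw [sub_one_apply, smul_sub, ← map_nsmul, ← hzdef, hσz, sub_self]
  obtain ⟨hcard, hfix⟩ := struct σ hN' β hgenM k hτ hz0
  have hcG : Nat.card G = p ^ (k * (p - 1) + 2) := by
    rw [← Subgroup.card_mul_index (BB s b), hi, ← I.card, hcard, ← pow_succ]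
  have hfin : Finite G := Nat.finite_of_card_ne_zero (by
    rw [hcG]; exact (pow_pos hp.out.pos _).ne')
  have hpz : p • z = 0 := by rw [← ev_S_fix σ hσz, hN0]
  have hG : IsPGroup p G := IsPGroup.of_card hcG
  have hsb : s * b ≠ b * s := by
    intro h
    have h1 : σ β = β := I.inj (by rw [I.act, hβ, h, mul_inv_cancel_right])
    obtain ⟨j, hj⟩ := hfix β (by rw [sub_one_apply, h1, sub_self])
    apply hz0
    obtain ⟨k', rfl⟩ := Nat.exists_eq_add_of_le hk
    have h2 : p ^ (1 + k') • z = 0 := by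
      rw [add_comm, pow_succ, mul_smul, hpz, smul_zero]
    rw [← hzdef] at hj
    calc z = p ^ (1 + k') • β := hzdef
      _ = p ^ (1 + k') • (j • z) := by rw [← hj]
      _ = 0 := by rw [smul_comm, h2, smul_zero]
  have hna : ∃ x y : G, x * y ≠ y * x := ⟨s, b, hsb⟩
  have hcA := center_le hi hc hna
  have hzc : I.φ z ∈ Subgroup.center G :=
    mem_center_of hi hc hs (I.mem z) (by rw [← I.act, hσz])
  have hcz : Subgroup.center G = Subgroup.zpowers (I.φ z) := by
    apply le_antisymm
    · intro g hg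
      obtain ⟨x, rfl⟩ := I.surj g (hcA hg)
      have h1 : σ x = x := I.inj (by
        rw [I.act, Subgroup.mem_center_iff.1 hg s, mul_inv_cancel_right])
      obtain ⟨j, hj⟩ := hfix x (by rw [sub_one_apply, h1, sub_self])
      rw [hj, I.zsmul]
      exact Subgroup.zpow_mem_zpowers _ _
    · exact Subgroup.zpowers_le.2 hzc
  have hz1 : I.φ z ≠ 1 := by
    intro h
    apply hz0
    apply I.inj
    rw [h, I.zero]
  have hordz : orderOf (I.φ z) = p := orderOf_eq_prime (by rw [← I.nsmul, hpz, I.zero]) hz1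
  have hcc : Nat.card (Subgroup.center G) = p := by rw [hcz, Nat.card_zpowers, hordz]
  have hlz : ∀ l : ℤ, ¬ (p : ℤ) ∣ l → I.φ (l • z) ≠ 1 := by
    intro l hl h
    apply hz0
    obtain ⟨v, hv, -⟩ := exists_inv_smul (p := p) (x := z) (e := 1) (by rw [pow_one, hpz]) hl
    have h1 : l • z = 0 := I.inj (by rw [h, I.zero])
    rw [← hv, h1, smul_zero]
  refine ⟨hcG, hsb, ⟨BB s b, hi, hc⟩, by rw [← hz]; exact hzc, by
    rw [← hz, ← I.nsmul, hpz, I.zero], ?_⟩
  refine (criterion hG).2 (Or.inr ⟨hna, isCyclic_of_prime_card hcc, fun x => ?_⟩)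
  rw [hcc]
  by_cases hx : ∃ j : ℤ, x ^ j ∈ Subgroup.center G ∧ x ^ j ≠ 1
  · obtain ⟨j, hj1, hj2⟩ := hx
    have h1 : Nat.card (Subgroup.zpowers x ⊓ Subgroup.center G : Subgroup G) ∣ p := by
      conv_rhs => rw [← hcc]
      exact Subgroup.card_dvd_of_le inf_le_right
    rcases (Nat.dvd_prime hp.out).1 h1 with h | h
    · exfalso
      have h2 := Subgroup.card_eq_one.1 h
      apply hj2
      have h3 : x ^ j ∈ (Subgroup.zpowers x ⊓ Subgroup.center G : Subgroup G) :=
        ⟨Subgroup.zpow_mem_zpowers x j, hj1⟩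
      rw [h2] at h3
      exact h3
    · rw [h]
      exact pow_mem_powComm p x
  · push Not at hx
    have h1 : (Subgroup.zpowers x ⊓ Subgroup.center G : Subgroup G) = ⊥ := by
      rw [eq_bot_iff]
      rintro y ⟨hy1, hy2⟩
      obtain ⟨j, rfl⟩ := Subgroup.mem_zpowers_iff.1 hy1
      exact hx j hy2
    rw [h1, Subgroup.card_bot, pow_one]
    by_cases hxA : x ∈ BB s b
    · obtain ⟨y, rfl⟩ := I.surj x hxA
      obtain ⟨f, rfl⟩ := hgenM y
      by_cases hl : (p : ℤ) ∣ f.coeff 0
      · obtain ⟨l, hl⟩ := hl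
        obtain ⟨g, hg⟩ := p_smul_B (p := p) hNβ (C l)
        have h2 : ev σ f β = ev σ X (ev σ (g + f.divX) β) := by
          conv_lhs => rw [← divX_mul_X_add f]
          rw [hl, C_mul, ev_add, ev_mul σ (C (p : ℤ)), ev_C]
          have e3 : ∀ y : M, (p : ℤ) • y = p • y := fun x => natCast_zsmul _ _
          rw [e3, hg, ← ev_mul, mul_add, ev_add, mul_comm (divX f), add_comm]
        rw [h2, ev_X', I.sub, I.act]
        apply commutator_le_powComm
        have h3 := Subgroup.commutator_mem_commutator (Subgroup.mem_top s)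
          (Subgroup.mem_top (I.φ (ev σ (g + f.divX) β)))
        rw [commutatorElement_def] at h3
        exact h3
      · exfalso
        have h2 : p ^ k • ev σ f β = f.coeff 0 • z := by
          rw [← map_nsmul, ← hzdef, ev_fix' σ hσz]
        have h3 : (I.φ (ev σ f β)) ^ ((p ^ k : ℕ) : ℤ) = I.φ (f.coeff 0 • z) := by
          rw [zpow_natCast, ← I.nsmul, h2]
        apply hlz _ hl
        rw [← h3]
        apply hx
        rw [h3, I.zsmul]
        exact Subgroup.zpow_mem _ hzc _
    · exfalso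
      obtain ⟨l, a, ha, rfl⟩ := exists_pow_eq hi hG hs hxA
      obtain ⟨α, rfl⟩ := I.surj a ha
      have h2 : (I.φ α * s) ^ p = I.φ z := by
        rw [mul_pow_eq, ← I.norm, hN', I.zero, one_mul, hz]
      have h4 : ∀ l : ℤ, ((I.φ α * s) ^ l) ^ (p : ℤ) = I.φ (l • z) := by
        intro l
        rw [← zpow_mul, mul_comm, zpow_mul, zpow_natCast, h2, I.zsmul]
      have hl : ¬ (p : ℤ) ∣ l := by
        rintro ⟨w, rfl⟩
        apply hxA
        rw [zpow_mul, zpow_natCast, h2]
        exact Subgroup.zpow_mem _ (I.mem z) _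
      apply hlz l hl
      rw [← h4]
      apply hx
      rw [h4, I.zsmul]
      exact Subgroup.zpow_mem _ hzc _

end Bwd

section Pres

variable {p k : ℕ}

theorem rel_map {G H : Type} [Group G] [Group H] (f : G →* H) {s b : G} (h : Rel p k s b) :
    Rel p k (f s) (f b) := by
  refine ⟨fun i => ?_, ?_, ?_⟩
  · have := congrArg f (h.1 i)
    simpa only [map_mul, map_inv, map_pow] using this
  · have := congrArg f h.2.1
    rw [map_list_prod, List.map_map, map_one] at this
    rw [← this]
    congr 1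
    apply List.map_congr_left
    intro i _
    simp only [Function.comp, map_mul, map_inv, map_pow]
  · rw [← map_pow, h.2.2, map_pow]

theorem lift_rels {H : Type} [Group H] {S β : H} (h : Rel p k S β) :
    ∀ r ∈ rels p k, FreeGroup.lift (fun c => cond c S β) r = 1 := by
  rintro r (⟨i, rfl⟩ | rfl | rfl)
  · rw [map_commutatorElement, commutatorElement_eq_one_iff_mul_comm]
    simp only [map_mul, map_inv, map_pow, FreeGroup.lift_apply_of, cond_true, cond_false]
    exact h.1 i
  · rw [map_list_prod, List.map_map, ← h.2.1]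
    congr 1
    apply List.map_congr_left
    intro i _
    simp only [Function.comp, map_mul, map_inv, map_pow, FreeGroup.lift_apply_of, cond_true,
      cond_false]
  · simp only [map_mul, map_inv, map_pow, FreeGroup.lift_apply_of, cond_true, cond_false]
    rw [h.2.2, mul_inv_cancel]

/-- The homomorphism given by elements satisfying the relations. -/
def toH {H : Type} [Group H] {S β : H} (h : Rel p k S β) : GG p k →* H :=
  PresentedGroup.toGroup (lift_rels h)

/-- The first generator. -/
def gs (p k : ℕ) : GG p k := PresentedGroup.of true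

/-- The second generator. -/
def gb (p k : ℕ) : GG p k := PresentedGroup.of false

theorem toH_s {H : Type} [Group H] {S β : H} (h : Rel p k S β) : toH h (gs p k) = S :=
  PresentedGroup.toGroup.of (lift_rels h)

theorem toH_b {H : Type} [Group H] {S β : H} (h : Rel p k S β) : toH h (gb p k) = β :=
  PresentedGroup.toGroup.of (lift_rels h)

theorem rel_GG : Rel p k (gs p k) (gb p k) := by
  have h0 : ∀ r ∈ rels p k, PresentedGroup.mk (rels p k) r = 1 := fun r hr =>
    PresentedGroup.one_of_mem hr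
  refine ⟨fun i => ?_, ?_, ?_⟩
  · have h := h0 _ (Or.inl ⟨i, rfl⟩)
    rw [map_commutatorElement, commutatorElement_eq_one_iff_mul_comm] at h
    exact h
  · have h := h0 _ (Or.inr (Or.inl rfl))
    rw [map_list_prod, List.map_map] at h
    exact h
  · have h := h0 _ (Or.inr (Or.inr rfl))
    rw [map_mul, map_inv, mul_inv_eq_one] at h
    exact h

theorem gen_GG : Subgroup.closure {gs p k, gb p k} = ⊤ := by
  rw [eq_top_iff, ← PresentedGroup.closure_range_of (rels p k)]
  apply Subgroup.closure_mono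
  rintro _ ⟨c, rfl⟩
  rcases c with _ | _
  · exact Or.inr rfl
  · exact Or.inl rfl

end Pres

end Pool.Agent.Helper35.CD
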