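import Mathlib
import Pool.Agent.Helper35.CD.Defs
import Pool.Agent.Helper35.CD.Fwd

set_option autoImplicit false

/-! Co-Dedekindian groups with an abelian maximal subgroup: the main theorem. -/

open Polynomial

open scoped commutatorElement

namespace Pool.Agent.Helper35.CD

open Pool.Agent.Helper77.CD Pool.Agent.Helper94.CoD

section Fwd

variable {p : ℕ} [hp : Fact p.Prime] {G : Type} [Group G] {A : Subgroup G} [hAn : A.Normal]

theorem closure_top {s : G} {M : Type} [AddCommGroup M] {σ : AddMonoid.End M} (I : IF A s M σ)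
    (hi : A.index = p) (hs : s ∉ A) {b : M} (hgen : Gen σ b) :
    Subgroup.closure {s, I.φ b} = ⊤ := by
  rw [eq_top_iff]
  intro g _
  obtain ⟨i, a, ha, rfl⟩ := cover hi hs g
  have h1 : s ∈ Subgroup.closure {s, I.φ b} := Subgroup.subset_closure (by simp)
  have h2 : I.φ b ∈ Subgroup.closure {s, I.φ b} := Subgroup.subset_closure (by simp)
  apply Subgroup.mul_mem _ (Subgroup.pow_mem _ h1 i)
  obtain ⟨x, rfl⟩ := I.surj a ha
  obtain ⟨f, rfl⟩ := hgen x
  exact I.ev_mem h1 h2 f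

theorem forward [Finite G] (hG : IsPGroup p G) (hna : ∃ a b : G, a * b ≠ b * a)
    (hco : IsCoDedekindian G) (hi : A.index = p) (hAc : ∀ x ∈ A, ∀ y ∈ A, x * y = y * x) :
    ∃ k : ℕ, 1 ≤ k ∧ ∃ s b : G, Rel p k s b ∧ Subgroup.closure {s, b} = ⊤ ∧
      Nat.card G = p ^ (k * (p - 1) + 2) := by
  obtain ⟨s, hs⟩ : ∃ s, s ∉ A := by
    by_contra h
    push Not at h
    have h1 : A = ⊤ := eq_top_iff.2 fun x _ => h x
    rw [h1, Subgroup.index_top] at hi
    exact hp.out.one_lt.ne hi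
  obtain ⟨M, _, σ, ⟨I⟩⟩ := IF.ex A hAc s
  have hsp : s ^ p ∈ A := pow_p_mem hi s
  obtain ⟨z0, hz0⟩ := I.surj _ hsp
  obtain ⟨E, hE⟩ := IsPGroup.iff_card.1 hG
  have hEM : ∀ x : M, p ^ E • x = 0 := by
    intro x
    apply I.inj
    rw [I.nsmul, I.zero, ← hE]
    exact pow_card_eq_one'
  have hσp : σ ^ p = 1 := by
    apply AddMonoidHom.ext
    intro x
    apply I.inj
    have h := I.act_pow p x
    rw [hAc _ hsp _ (I.mem x), mul_inv_cancel_right] at h
    exact h
  have hσz0 : σ z0 = z0 := I.inj (by rw [I.act, hz0]; group)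
  have hcA := center_le hi hAc hna
  have hfix1 : ∀ x, σ x = x → I.φ x ∈ Subgroup.center G := fun x h =>
    mem_center_of hi hAc hs (I.mem x) (by rw [← I.act, h])
  have hfix2 : ∀ x, I.φ x ∈ Subgroup.center G → σ x = x := fun x h =>
    I.inj (by rw [I.act, Subgroup.mem_center_iff.1 h s, mul_inv_cancel_right])
  have hZc := isCyclic_center hG hco
  obtain ⟨ζ0, hζ0⟩ := hZc.exists_generator
  obtain ⟨ζ, hζ⟩ := I.surj ζ0 (hcA ζ0.2)
  have hnt : Nontrivial G := by
    obtain ⟨a, b, hab⟩ := hna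
    exact ⟨a * b, b * a, hab⟩
  have hcnt : Nontrivial (Subgroup.center G) := hG.center_nontrivial
  obtain ⟨m, hm⟩ : ∃ m : ℕ, Nat.card (Subgroup.center G) = p ^ (m + 1) := by
    obtain ⟨l, hl0, hl⟩ := (hG.to_subgroup (Subgroup.center G)).nontrivial_iff_card.1 hcnt
    obtain ⟨m, rfl⟩ := Nat.exists_eq_succ_of_ne_zero hl0.ne'
    exact ⟨m, hl⟩
  have hord : orderOf ζ0 = p ^ (m + 1) := by
    rw [orderOf_eq_card_of_forall_mem_zpowers hζ0, hm]
  have hm1 : p ^ (m + 1) • ζ = 0 := by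
    apply I.inj
    rw [I.nsmul, I.zero, hζ, ← hord, ← SubgroupClass.coe_pow, pow_orderOf_eq_one]
    rfl
  have hm2 : p ^ m • ζ ≠ 0 := by
    intro h
    have h1 : ζ0 ^ p ^ m = 1 := by
      apply Subtype.ext
      rw [SubgroupClass.coe_pow, ← hζ, ← I.nsmul, h, I.zero]
      rfl
    have h2 := orderOf_dvd_of_pow_eq_one h1
    rw [hord] at h2
    have h3 := Nat.le_of_dvd (pow_pos hp.out.pos m) h2
    have h4 : p ^ m < p ^ (m + 1) := Nat.pow_lt_pow_right hp.out.one_lt (Nat.lt_succ_self m)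
    omega
  have hpc := powComm_le I hi hG hs hz0 m
  have hcrit : ∀ x : G, (∀ j : ℤ, x ^ j ∈ Subgroup.center G → x ^ j = 1) →
      x ∈ I.img (RM p m σ z0) := by
    intro x hx
    have h1 : (Subgroup.zpowers x ⊓ Subgroup.center G : Subgroup G) = ⊥ := by
      rw [eq_bot_iff]
      rintro y ⟨hy1, hy2⟩
      obtain ⟨j, rfl⟩ := Subgroup.mem_zpowers_iff.1 hy1
      exact hx j hy2
    have h2 := crit_mp hG hco hna x
    rw [h1, Subgroup.card_bot, pow_one, hm] at h2
    exact hpc h2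
  have hN0 : ∀ a, ev σ (S p) a ≠ z0 := by
    intro a ha
    have h1 : (I.φ (-a) * s) ^ p = 1 := by
      rw [mul_pow_eq, ← I.norm, norm_eq_ev, map_neg, ha, I.neg, hz0, inv_mul_cancel]
    have h2 : I.φ (-a) * s ∉ A := by
      intro h
      apply hs
      have := A.mul_mem (A.inv_mem (I.mem (-a))) h
      rwa [inv_mul_cancel_left] at this
    have h3 := hcrit (I.φ (-a) * s) (by
      intro j hj
      by_cases hpj : (p : ℤ) ∣ j
      · obtain ⟨w, rfl⟩ := hpj
        rw [zpow_mul, zpow_natCast, h1, one_zpow]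
      · exfalso
        have hpr : Prime (p : ℤ) := Nat.prime_iff_prime_int.1 hp.out
        obtain ⟨u, v, huv⟩ := (hpr.coprime_iff_not_dvd).2 hpj
        apply h2
        have h4 : I.φ (-a) * s = ((I.φ (-a) * s) ^ j) ^ v := by
          calc I.φ (-a) * s = (I.φ (-a) * s) ^ (1 : ℤ) := (zpow_one _).symm
            _ = (I.φ (-a) * s) ^ ((p : ℤ) * u + j * v) := by rw [← huv]; ring_nf
            _ = _ := by rw [zpow_add, zpow_mul, zpow_natCast, h1, one_zpow, one_mul, zpow_mul]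
        rw [h4]
        exact A.zpow_mem (hcA hj) v)
    obtain ⟨y, -, hy⟩ := h3
    apply h2
    rw [← hy]
    exact I.mem y
  have hcr : ∀ x : M, (∀ j : ℤ, σ (j • x) = j • x → j • x = 0) →
      ∃ a c d : M, ∃ j : ℤ, x = ev σ X a + p ^ (m + 1) • c +
        p ^ m • (ev σ (S p) d + j • z0) := by
    intro x hx
    obtain ⟨y, hy, hyx⟩ := hcrit (I.φ x) (by
      intro j hj
      rw [← I.zsmul] at hj ⊢
      rw [hx j (hfix2 _ hj), I.zero])
    rw [← I.inj hyx]
    exact hy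
  have hne : ∃ a, σ a ≠ a := by
    by_contra h
    push Not at h
    obtain ⟨a, b, hab⟩ := hna
    apply hab
    obtain ⟨i, a', ha', rfl⟩ := cover hi hs a
    obtain ⟨j, b', hb', rfl⟩ := cover hi hs b
    have hz : ∀ c ∈ A, ∀ g, g * c = c * g := by
      intro c hc g
      obtain ⟨x, rfl⟩ := I.surj c hc
      exact Subgroup.mem_center_iff.1 (hfix1 x (h x)) g
    calc s ^ i * a' * (s ^ j * b') = s ^ i * (a' * s ^ j) * b' := by group
      _ = s ^ i * (s ^ j * a') * b' := by rw [hz a' ha' (s ^ j)]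
      _ = s ^ j * s ^ i * (a' * b') := by group
      _ = s ^ j * s ^ i * (b' * a') := by rw [hz a' ha' b']
      _ = s ^ j * (s ^ i * b') * a' := by group
      _ = s ^ j * (b' * s ^ i) * a' := by rw [hz b' hb' (s ^ i)]
      _ = s ^ j * b' * (s ^ i * a') := by group
  have hH : Hyp p m E σ z0 := mk_hyp hEM hσp hσz0 ζ (hfix2 ζ (by rw [hζ]; exact ζ0.2)) (by
    intro z hz
    obtain ⟨j, hj⟩ := Subgroup.mem_zpowers_iff.1 (hζ0 ⟨I.φ z, hfix1 z hz⟩)
    refine ⟨j, I.inj ?_⟩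
    rw [I.zsmul, hζ]
    exact (congrArg Subtype.val hj).symm) hN0 hm1 hm2 hcr hne
  obtain ⟨-, k, hk, b, hgen, hNb, hkb⟩ := module_main hH
  refine ⟨k, hk, s, I.φ b, ⟨?_, ?_, ?_⟩, closure_top I hi hs hgen, ?_⟩
  · intro i
    rw [← I.act_pow]
    exact hAc _ (I.mem _) _ (I.mem _)
  · rw [← I.norm, norm_eq_ev, hNb, I.zero]
  · rw [← hz0, ← hkb, I.nsmul]
  · have h1 : ∀ x : M, ∑ i ∈ Finset.range p, (σ ^ i : AddMonoid.End M) x = 0 := by
      intro x
      obtain ⟨f, rfl⟩ := hgen x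
      rw [norm_eq_ev, ev_comm, hNb, map_zero]
    have h2 := (struct σ h1 b hgen k (by
      rw [sub_one_apply, smul_sub, ← map_nsmul, hkb, hσz0, sub_self]) (by
      rw [hkb]
      intro h0
      apply hN0 0
      rw [map_zero, h0])).1
    rw [← Subgroup.card_mul_index A, hi, ← I.card, h2, ← pow_succ]

end Fwd

end Pool.Agent.Helper35.CD
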