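import Mathlib
import Pool.Agent.Helper35.CD.Defs
import Pool.Agent.Helper35.CD.Grp

set_option autoImplicit false

/-! A permutation model of the presentation. -/

namespace Pool.Agent.Helper35.CD

section Model

variable {p : ℕ} [hp : Fact p.Prime] {q : ℕ}

/-- Translation of the second coordinate by a function of the first. -/
def T (u : ZMod p → ZMod q) : Equiv.Perm (ZMod p × ZMod q) where
  toFun x := (x.1, x.2 + u x.1)
  invFun x := (x.1, x.2 - u x.1)
  left_inv x := by simp
  right_inv x := by simp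

/-- The shift of the first coordinate. -/
def P (p q : ℕ) : Equiv.Perm (ZMod p × ZMod q) where
  toFun x := (x.1 + 1, x.2)
  invFun x := (x.1 - 1, x.2)
  left_inv x := by simp
  right_inv x := by simp

omit hp in
theorem T_apply (u : ZMod p → ZMod q) (x : ZMod p × ZMod q) : T u x = (x.1, x.2 + u x.1) := rfl

theorem P_apply (x : ZMod p × ZMod q) : P p q x = (x.1 + 1, x.2) := rfl

omit hp in
theorem T_mul (u v : ZMod p → ZMod q) : T u * T v = T (u + v) := by
  apply Equiv.ext
  intro x
  rw [Equiv.Perm.mul_apply, T_apply, T_apply, T_apply]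
  apply Prod.ext
  · rfl
  · change x.2 + v x.1 + u x.1 = x.2 + (u x.1 + v x.1)
    ring

omit hp in
theorem T_zero : T (0 : ZMod p → ZMod q) = 1 := by
  apply Equiv.ext
  intro x
  rw [T_apply]
  simp

omit hp in
theorem T_pow (u : ZMod p → ZMod q) (n : ℕ) : (T u) ^ n = T (n • u) := by
  induction n with
  | zero => rw [pow_zero, zero_smul, T_zero]
  | succ n ih => rw [pow_succ, ih, T_mul, succ_nsmul]

theorem conj1 (w u : ZMod p → ZMod q) :
    (T w * P p q) * T u * (T w * P p q)⁻¹ = T (fun i => u (i - 1)) := by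
  rw [mul_inv_eq_iff_eq_mul]
  apply Equiv.ext
  intro x
  simp only [Equiv.Perm.mul_apply, T_apply, P_apply]
  apply Prod.ext
  · rfl
  · change x.2 + u x.1 + w (x.1 + 1) = x.2 + w (x.1 + 1) + u (x.1 + 1 - 1)
    rw [add_sub_cancel_right]
    ring

theorem conjn (w u : ZMod p → ZMod q) (n : ℕ) :
    (T w * P p q) ^ n * T u * ((T w * P p q) ^ n)⁻¹ =
      T (fun i : ZMod p => u (i - (n : ZMod p))) := by
  induction n generalizing u with
  | zero => simp
  | succ n ih =>
    have h : (T w * P p q) ^ (n + 1) * T u * ((T w * P p q) ^ (n + 1))⁻¹ =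
        (T w * P p q) ^ n * ((T w * P p q) * T u * (T w * P p q)⁻¹) *
          ((T w * P p q) ^ n)⁻¹ := by
      rw [pow_succ, mul_inv_rev]
      simp only [mul_assoc]
    rw [h, conj1, ih]
    congr 1
    funext i
    rw [Nat.cast_add, Nat.cast_one, sub_sub]

theorem prodn (w u : ZMod p → ZMod q) (n : ℕ) :
    ((List.range n).map fun i => (T w * P p q) ^ i * T u * ((T w * P p q) ^ i)⁻¹).prod =
      T (fun j : ZMod p => ∑ i ∈ Finset.range n, u (j - (i : ZMod p))) := by
  induction n with
  | zero =>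
    rw [List.range_zero, List.map_nil, List.prod_nil, ← T_zero]
    congr 1
  | succ n ih =>
    rw [List.range_succ, List.map_append, List.prod_append, ih]
    simp only [List.map_cons, List.map_nil, List.prod_cons, List.prod_nil, mul_one]
    rw [conjn, T_mul]
    congr 1
    funext j
    rw [Finset.sum_range_succ]
    rfl

theorem sum_shift (f : ZMod p → ZMod q) (j : ZMod p) :
    ∑ i ∈ Finset.range p, f (j - (i : ZMod p)) = ∑ u : ZMod p, f u := by
  apply Finset.sum_nbij' (fun i : ℕ => j - (i : ZMod p)) (fun u : ZMod p => (j - u).val)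
  · intro i _
    exact Finset.mem_univ _
  · intro u _
    exact Finset.mem_range.2 (ZMod.val_lt _)
  · intro i hi
    rw [sub_sub_cancel, ZMod.val_natCast_of_lt (Finset.mem_range.1 hi)]
  · intro u _
    rw [ZMod.natCast_zmod_val, sub_sub_cancel]
  · intro i _
    rfl

theorem P_pow (n : ℕ) (x : ZMod p × ZMod q) : ((P p q) ^ n) x = (x.1 + n, x.2) := by
  induction n generalizing x with
  | zero => simp
  | succ n ih =>
    rw [pow_succ, Equiv.Perm.mul_apply, ih, P_apply]
    apply Prod.ext
    · change x.1 + 1 + (n : ZMod p) = x.1 + ((n + 1 : ℕ) : ZMod p)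
      push_cast
      ring
    · rfl

theorem P_p : (P p q) ^ p = 1 := by
  apply Equiv.ext
  intro x
  rw [P_pow]
  simp

theorem TP_p (w : ZMod p → ZMod q) : (T w * P p q) ^ p = T (fun _ => ∑ u : ZMod p, w u) := by
  rw [mul_pow_eq, P_p, mul_one]
  have h := prodn (0 : ZMod p → ZMod q) w p
  rw [T_zero, one_mul] at h
  rw [h]
  congr 1
  funext j
  exact sum_shift w j

end Model

section Rel

variable {p : ℕ} [hp : Fact p.Prime]

theorem model_rel (k : ℕ) : ∃ (H : Type) (_ : Group H) (S β : H), Rel p k S β ∧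
    β ^ (p ^ k) ≠ 1 := by
  let q := p ^ (k + 1)
  let w : ZMod p → ZMod q := fun i => if i = 0 then ((p ^ k : ℕ) : ZMod q) else 0
  let v : ZMod p → ZMod q := fun i => 1 - (if i = 0 then ((p : ℕ) : ZMod q) else 0)
  have hw : ∑ u : ZMod p, w u = ((p ^ k : ℕ) : ZMod q) := by
    simp [w]
  have hv : ∑ u : ZMod p, v u = 0 := by
    simp only [v, Finset.sum_sub_distrib, Finset.sum_ite_eq', Finset.mem_univ, if_true,
      Finset.sum_const, Finset.card_univ, ZMod.card, nsmul_eq_mul, mul_one, sub_self]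
  have hpv : p ^ k • v = fun _ => ((p ^ k : ℕ) : ZMod q) := by
    funext i
    rw [Pi.smul_apply, nsmul_eq_mul]
    by_cases hi : i = 0
    · have h1 : ((p ^ k : ℕ) : ZMod q) * ((p : ℕ) : ZMod q) = 0 := by
        rw [← Nat.cast_mul, ← pow_succ]
        exact ZMod.natCast_self q
      simp only [v, hi, if_true]
      rw [mul_sub, h1, mul_one, sub_zero]
    · simp only [v, hi, if_false, sub_zero, mul_one]
  refine ⟨Equiv.Perm (ZMod p × ZMod q), inferInstance, T w * P p q, T v, ⟨?_, ?_, ?_⟩, ?_⟩
  · intro i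
    rw [conjn, T_mul, T_mul, add_comm]
  · rw [prodn, ← T_zero (p := p) (q := q)]
    congr 1
    funext j
    rw [sum_shift, hv]
    rfl
  · rw [TP_p, T_pow, hpv, hw]
  · rw [T_pow, hpv]
    intro h
    have h1 := congrArg (fun g : Equiv.Perm (ZMod p × ZMod q) => (g (0, 0)).2) h
    have h2 : (0 : ZMod q) + ((p ^ k : ℕ) : ZMod q) = 0 := h1
    rw [zero_add, ZMod.natCast_eq_zero_iff] at h2
    have h3 := Nat.le_of_dvd (pow_pos hp.out.pos k) h2
    have h4 : p ^ k < p ^ (k + 1) := Nat.pow_lt_pow_right hp.out.one_lt (Nat.lt_succ_self k)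
    exact absurd h3 (not_le.2 h4)

theorem chi_rel (k : ℕ) : Rel p k (Multiplicative.ofAdd (1 : ZMod p))
    (1 : Multiplicative (ZMod p)) := by
  refine ⟨fun i => by simp, ?_, ?_⟩
  · apply List.prod_eq_one
    intro x hx
    obtain ⟨i, -, rfl⟩ := List.mem_map.1 hx
    rw [mul_one, mul_inv_cancel]
  · rw [one_pow, ← ofAdd_nsmul]
    simp

end Rel

end Pool.Agent.Helper35.CD
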