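import Mathlib
import Pool.Agent.Helper35.CD.Fwd2
import Pool.Agent.Helper35.CD.Bwd2
import Pool.Agent.Helper35.CD.Model

set_option autoImplicit false

/-! The classification. -/

namespace Pool.Agent.Helper35.CD

open Pool.Agent.Helper77.CD Pool.Agent.Helper94.CoD

section Final

variable {p : ℕ} [hp : Fact p.Prime] {k : ℕ}

theorem not_mem_of_chi {G : Type} [Group G] {s b : G} (χ : G →* Multiplicative (ZMod p))
    (hs : χ s = Multiplicative.ofAdd 1) (hb : χ b = 1) : s ∉ BB s b := by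
  intro h
  have h1 : BB s b ≤ χ.ker := by
    rw [BB, Subgroup.closure_le]
    rintro _ ⟨i, rfl⟩
    change χ (s ^ i * b * (s ^ i)⁻¹) = 1
    rw [map_mul, map_mul, hb, mul_one, map_inv, mul_inv_cancel]
  have h2 := h1 h
  rw [MonoidHom.mem_ker, hs] at h2
  exact one_ne_zero (α := ZMod p) h2

theorem gb_pow_ne : gb p k ^ (p ^ k) ≠ 1 := by
  obtain ⟨H, _, S, β, hr, hne⟩ := model_rel (p := p) k
  intro h
  apply hne
  rw [← toH_b hr, ← map_pow, h, map_one]

/-- Transport of all facts to a group isomorphic to `GG p k`. -/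
theorem of_iso (hk : 1 ≤ k) {G : Type} [Group G] (e : G ≃* GG p k) :
    Nat.card G = p ^ (k * (p - 1) + 2) ∧ e.symm (gs p k) * e.symm (gb p k) ≠
        e.symm (gb p k) * e.symm (gs p k) ∧
      (∃ A : Subgroup G, A.index = p ∧ ∀ x ∈ A, ∀ y ∈ A, x * y = y * x) ∧
      (e.symm (gs p k)) ^ p ∈ Subgroup.center G ∧ ((e.symm (gs p k)) ^ p) ^ p = 1 ∧
      IsCoDedekindian G := by
  refine backward hk (rel_map e.symm.toMonoidHom rel_GG) ?_ ?_ ?_
  · have h := congrArg (Subgroup.map e.symm.toMonoidHom) (gen_GG (p := p) (k := k))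
    rw [MonoidHom.map_closure, Set.image_pair, Subgroup.map_top_of_surjective _
      e.symm.surjective] at h
    exact h
  · refine not_mem_of_chi ((toH (chi_rel (p := p) k)).comp e.toMonoidHom) ?_ ?_
    · change toH (chi_rel (p := p) k) (e (e.symm (gs p k))) = _
      rw [e.apply_symm_apply, toH_s]
    · change toH (chi_rel (p := p) k) (e (e.symm (gb p k))) = _
      rw [e.apply_symm_apply, toH_b]
  · intro h
    apply gb_pow_ne (p := p) (k := k)
    have h2 := congrArg e h
    change e ((e.symm (gb p k)) ^ (p ^ k)) = e 1 at h2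
    rwa [map_pow, e.apply_symm_apply, map_one] at h2

theorem exists_aut (hk : 1 ≤ k) : ∃ α : GG p k ≃* GG p k,
    (∀ g, g⁻¹ * α g ∈ Subgroup.center (GG p k)) ∧ α ≠ MulEquiv.refl (GG p k) := by
  obtain ⟨hcard, -, -, hzc, hzp, -⟩ := of_iso hk (MulEquiv.refl (GG p k))
  have hfin : Finite (GG p k) := Nat.finite_of_card_ne_zero (by
    rw [hcard]; exact (pow_pos hp.out.pos _).ne')
  set s := gs p k with hsd
  set b := gb p k with hbd
  set z := s ^ p with hzd
  have hzc' : z ∈ Subgroup.center (GG p k) := hzc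
  have hzp' : z ^ p = 1 := hzp
  have hrel : Rel p k s b := rel_GG
  have hzb : z = b ^ (p ^ k) := hrel.2.2
  have hz1 : z ≠ 1 := by rw [hzb]; exact gb_pow_ne
  have hcz : ∀ g : GG p k, g * z = z * g := fun g => Subgroup.mem_center_iff.1 hzc' g
  have hpw : ∀ i : ℕ, (s * z) ^ i = s ^ i * z ^ i := fun i =>
    (show Commute s z from hcz s).mul_pow i
  have hcj : ∀ i : ℕ, (s * z) ^ i * b * ((s * z) ^ i)⁻¹ = s ^ i * b * (s ^ i)⁻¹ := by
    intro i
    have h1 : z ^ i * b = b * z ^ i := ((show Commute z b from (hcz b).symm).pow_left i).eq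
    rw [hpw, mul_inv_rev, mul_assoc (s ^ i), h1]
    group
  have hr : Rel p k (s * z) b := by
    refine ⟨fun i => ?_, ?_, ?_⟩
    · rw [hcj]; exact hrel.1 i
    · simp only [hcj]; exact hrel.2.1
    · rw [hpw, hzp', mul_one]; exact hrel.2.2
  let f : GG p k →* GG p k := toH hr
  have hfs : f s = s * z := toH_s hr
  have hfb : f b = b := toH_b hr
  have hsurj : Function.Surjective f := by
    rw [← MonoidHom.range_eq_top, eq_top_iff, ← gen_GG, Subgroup.closure_le]
    have hb' : b ∈ f.range := ⟨b, hfb⟩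
    have hz' : z ∈ f.range := by rw [hzb]; exact Subgroup.pow_mem _ hb' _
    rintro g (rfl | hg)
    · have h1 : s * z * z⁻¹ ∈ f.range := Subgroup.mul_mem _ ⟨s, hfs⟩ (Subgroup.inv_mem _ hz')
      rwa [mul_inv_cancel_right] at h1
    · have hg' : g = b := hg
      rw [hg']
      exact hb'
  let α : GG p k ≃* GG p k :=
    MulEquiv.ofBijective f ⟨Finite.injective_iff_surjective.2 hsurj, hsurj⟩
  have hα : ∀ g, α g = f g := fun g => rfl
  refine ⟨α, fun g => ?_, fun h => ?_⟩
  · rw [hα]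
    have hg : g ∈ Subgroup.closure {s, b} := by rw [hsd, hbd, gen_GG]; exact Subgroup.mem_top g
    induction hg using Subgroup.closure_induction with
    | mem g hg =>
      rcases hg with rfl | hg
      · rw [hfs, inv_mul_cancel_left]; exact hzc'
      · have hg' : g = b := hg
        rw [hg', hfb, inv_mul_cancel]; exact Subgroup.one_mem _
    | one => rw [map_one, inv_one, one_mul]; exact Subgroup.one_mem _
    | mul x y _ _ hx hy =>
      have h1 : (x * y)⁻¹ * f (x * y) = (x⁻¹ * f x) * (y⁻¹ * f y) := by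
        have h2 := Subgroup.mem_center_iff.1 hx y⁻¹
        rw [map_mul]
        calc (x * y)⁻¹ * (f x * f y) = y⁻¹ * (x⁻¹ * f x) * f y := by group
          _ = (x⁻¹ * f x) * y⁻¹ * f y := by rw [h2]
          _ = _ := by group
      rw [h1]
      exact Subgroup.mul_mem _ hx hy
    | inv x _ hx =>
      have h1 : (x⁻¹)⁻¹ * f x⁻¹ = (x⁻¹ * f x)⁻¹ := by
        have h2 := Subgroup.mem_center_iff.1 (Subgroup.inv_mem _ hx) x
        rw [map_inv]
        calc (x⁻¹)⁻¹ * (f x)⁻¹ = x * (x⁻¹ * f x)⁻¹ * x⁻¹ := by group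
          _ = (x⁻¹ * f x)⁻¹ := by rw [h2]; group
      rw [h1]
      exact Subgroup.inv_mem _ hx
  · have h1 : f s = s := by rw [← hα, h]; rfl
    rw [hfs] at h1
    exact hz1 (mul_eq_left.1 h1)

theorem exists_iso {G : Type} [Group G] [Finite G] (hG : IsPGroup p G)
    (hna : ∃ a b : G, a * b ≠ b * a) (hco : IsCoDedekindian G)
    (hA : ∃ A : Subgroup G, A.index = p ∧ ∀ x ∈ A, ∀ y ∈ A, x * y = y * x) :
    ∃ k : ℕ, 1 ≤ k ∧ Nonempty (G ≃* GG p k) := by
  obtain ⟨A, hi, hAc⟩ := hA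
  have hAn : A.Normal := by
    obtain ⟨n, hn⟩ := IsPGroup.iff_card.1 hG
    have hn0 : n ≠ 0 := by
      rintro rfl
      rw [pow_zero] at hn
      have h1 : A.index ∣ 1 := by rw [← hn]; exact A.index_dvd_card
      rw [hi] at h1
      exact hp.out.one_lt.ne' (Nat.dvd_one.1 h1)
    apply Subgroup.normal_of_index_eq_minFac_card
    rw [hi, hn, hp.out.pow_minFac hn0]
  obtain ⟨k, hk, s, b, hrel, hgen, hcard⟩ := forward hG hna hco hi hAc
  refine ⟨k, hk, ?_⟩
  have hcardGG := (of_iso hk (MulEquiv.refl (GG p k))).1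
  have hfin : Finite (GG p k) := Nat.finite_of_card_ne_zero (by
    rw [hcardGG]; exact (pow_pos hp.out.pos _).ne')
  let f : GG p k →* G := toH hrel
  have hsurj : Function.Surjective f := by
    rw [← MonoidHom.range_eq_top, eq_top_iff, ← hgen, Subgroup.closure_le]
    rintro g (rfl | hg)
    · exact ⟨gs p k, toH_s hrel⟩
    · have hg' : g = b := hg
      rw [hg']
      exact ⟨gb p k, toH_b hrel⟩
  have hbij : Function.Bijective f :=
    (Nat.bijective_iff_surjective_and_card f).2 ⟨hsurj, by rw [hcardGG, hcard]⟩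
  exact ⟨(MulEquiv.ofBijective f hbij).symm⟩

/-- The classification of the finite co-Dedekindian `p`-groups with an abelian maximal
subgroup. -/
theorem classification (p : ℕ) [hp : Fact p.Prime] :
    (∀ k : ℕ, 1 ≤ k → Nat.card (GG p k) = p ^ (k * (p - 1) + 2) ∧
      (∃ a b : GG p k, a * b ≠ b * a) ∧
      (∃ A : Subgroup (GG p k), A.index = p ∧ ∀ x ∈ A, ∀ y ∈ A, x * y = y * x) ∧
      CoDedekindian (GG p k) ∧
      (∃ α : GG p k ≃* GG p k, (∀ g, g⁻¹ * α g ∈ Subgroup.center (GG p k)) ∧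
        α ≠ MulEquiv.refl (GG p k))) ∧
    (∀ (G : Type) [Group G] [Finite G], IsPGroup p G →
      (∃ A : Subgroup G, A.index = p ∧ ∀ x ∈ A, ∀ y ∈ A, x * y = y * x) →
      (CoDedekindian G ↔ IsCyclic G ∨ ∃ k : ℕ, 1 ≤ k ∧ Nonempty (G ≃* GG p k))) := by
  refine ⟨fun k hk => ?_, fun G _ _ hG hA => ?_⟩
  · obtain ⟨h1, h2, h3, -, -, h4⟩ := of_iso hk (MulEquiv.refl (GG p k))
    exact ⟨h1, ⟨_, _, h2⟩, h3, h4, exists_aut hk⟩
  · constructor
    · intro hco
      rcases (criterion hG).1 hco with h | ⟨hna, -, -⟩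
      · exact Or.inl h
      · exact Or.inr (exists_iso hG hna hco hA)
    · rintro (h | ⟨k, hk, ⟨e⟩⟩)
      · exact (criterion hG).2 (Or.inl h)
      · exact (of_iso hk e).2.2.2.2.2

end Final

end Pool.Agent.Helper35.CD
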