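import Mathlib
import Pool.Agent.Helper35.CD.Final

set_option autoImplicit false

/-! For `p = 2` the groups are the generalized quaternion groups. -/

namespace Pool.Agent.Helper35.CD

theorem quat_rel (k : ℕ) : Rel 2 k (QuaternionGroup.xa 0 : QuaternionGroup (2 ^ k))
    (QuaternionGroup.a 1) := by
  have hc : ∀ (c : ZMod (2 * 2 ^ k)), (QuaternionGroup.xa 0 : QuaternionGroup (2 ^ k)) *
      QuaternionGroup.a c * (QuaternionGroup.xa 0)⁻¹ = QuaternionGroup.a (-c) := by
    intro c
    rw [mul_inv_eq_iff_eq_mul, QuaternionGroup.xa_mul_a, QuaternionGroup.a_mul_xa]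
    congr 1
    ring
  have hi : ∀ (i : ℕ), ∃ c, (QuaternionGroup.xa 0 : QuaternionGroup (2 ^ k)) ^ i *
      QuaternionGroup.a 1 * ((QuaternionGroup.xa 0) ^ i)⁻¹ = QuaternionGroup.a c := by
    intro i
    induction i with
    | zero => exact ⟨1, by simp⟩
    | succ i ih =>
      obtain ⟨c, hc'⟩ := ih
      refine ⟨-c, ?_⟩
      rw [← hc c, ← hc', pow_succ']
      group
  refine ⟨fun i => ?_, ?_, ?_⟩
  · obtain ⟨c, h⟩ := hi i
    rw [h, QuaternionGroup.a_mul_a, QuaternionGroup.a_mul_a, add_comm]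
  · have h1 : (List.range 2).map (fun i => (QuaternionGroup.xa 0 : QuaternionGroup (2 ^ k)) ^ i *
        QuaternionGroup.a 1 * ((QuaternionGroup.xa 0) ^ i)⁻¹) =
        [QuaternionGroup.a 1, QuaternionGroup.a (-1)] := by
      have h2 : List.range 2 = [0, 1] := rfl
      rw [h2, List.map_cons, List.map_cons, List.map_nil, pow_zero, pow_one, hc, one_mul, inv_one,
        mul_one]
    rw [h1, List.prod_cons, List.prod_cons, List.prod_nil, mul_one, QuaternionGroup.a_mul_a,
      add_neg_cancel, QuaternionGroup.a_zero]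
  · rw [QuaternionGroup.xa_sq, QuaternionGroup.a_one_pow]

theorem quat (k : ℕ) (hk : 1 ≤ k) : Nonempty (GG 2 k ≃* QuaternionGroup (2 ^ k)) := by
  have hcard := (of_iso (p := 2) hk (MulEquiv.refl (GG 2 k))).1
  have hfin : Finite (GG 2 k) := Nat.finite_of_card_ne_zero (by
    rw [hcard]; exact (pow_pos (by norm_num) _).ne')
  let f : GG 2 k →* QuaternionGroup (2 ^ k) := toH (quat_rel k)
  have hs : f (gs 2 k) = QuaternionGroup.xa 0 := toH_s (quat_rel k)
  have hb : f (gb 2 k) = QuaternionGroup.a 1 := toH_b (quat_rel k)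
  have hne : NeZero (2 * 2 ^ k) := ⟨by positivity⟩
  have hne' : NeZero (2 ^ k) := ⟨by positivity⟩
  have ha : ∀ i : ZMod (2 * 2 ^ k), f (gb 2 k ^ i.val) = QuaternionGroup.a i := by
    intro i
    rw [map_pow, hb, QuaternionGroup.a_one_pow, ZMod.natCast_zmod_val]
  have hsurj : Function.Surjective f := by
    rintro (i | i)
    · exact ⟨_, ha i⟩
    · refine ⟨gs 2 k * gb 2 k ^ i.val, ?_⟩
      rw [map_mul, ha, hs, QuaternionGroup.xa_mul_a, zero_add]
  have hcq : Nat.card (QuaternionGroup (2 ^ k)) = 4 * 2 ^ k := by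
    rw [Nat.card_eq_fintype_card, QuaternionGroup.card]
  have hbij : Function.Bijective f :=
    (Nat.bijective_iff_surjective_and_card f).2 ⟨hsurj, by
      rw [hcard, hcq]
      have : k * (2 - 1) + 2 = k + 2 := by omega
      rw [this, pow_add]; ring⟩
  exact ⟨MulEquiv.ofBijective f hbij⟩

theorem eq_of_iso {p : ℕ} [hp : Fact p.Prime] {k l : ℕ} (hk : 1 ≤ k) (hl : 1 ≤ l)
    (h : Nonempty (GG p k ≃* GG p l)) : k = l := by
  obtain ⟨e⟩ := h
  have h1 := (of_iso (p := p) hk (MulEquiv.refl (GG p k))).1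
  have h2 := (of_iso (p := p) hl (MulEquiv.refl (GG p l))).1
  rw [Nat.card_congr e.toEquiv, h2] at h1
  have h3 := Nat.pow_right_injective hp.out.two_le h1
  have h4 : 0 < p - 1 := by have := hp.out.two_le; omega
  have h5 : l * (p - 1) = k * (p - 1) := by simpa using h3
  exact (Nat.eq_of_mul_eq_mul_right h4 h5).symm

end Pool.Agent.Helper35.CD
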